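import Pool.Agent.P.MP_60ae12_al.T.Crit

/-! Ultrafilter limits of densities in disjoint finite blocks. -/

open Set Filter Topology
open Cardinal hiding univ

namespace Pool.Agent.P.MP_60ae12_al.T

universe u

variable {Ω ι : Type u}

/-- Standing data: disjoint blocks whose sizes tend to infinity, and the limit density. -/
structure Blk (Y : ι → Finset Ω) (U : Ultrafilter ι) (m : Set Ω → ℝ) : Prop where
  disj : ∀ i j x, x ∈ Y i → x ∈ Y j → i = j
  big : Tendsto (fun i => (Y i).card) U atTop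
  lim : ∀ C, Tendsto (fun i => ((C ∩ Y i).ncard : ℝ) / (Y i).card) U (𝓝 (m C))

variable {Y : ι → Finset Ω} {U : Ultrafilter ι} {m : Set Ω → ℝ}

theorem fin_inter (C : Set Ω) (s : Finset Ω) : (C ∩ s).Finite := s.finite_toSet.inter_of_right C

theorem exists_blk (h1 : ∀ i j x, x ∈ Y i → x ∈ Y j → i = j)
    (h2 : Tendsto (fun i => (Y i).card) U atTop) : ∃ m, Blk Y U m := by
  have hlim : ∀ C : Set Ω, ∃ r, Tendsto (fun i => ((C ∩ Y i).ncard : ℝ) / (Y i).card) U (𝓝 r) := by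
    intro C
    have h3 : (U.map (fun i => ((C ∩ Y i).ncard : ℝ) / (Y i).card) : Filter ℝ) ≤ 𝓟 (Icc 0 1) := by
      rw [le_principal_iff, Ultrafilter.coe_map, Filter.mem_map]
      refine Filter.univ_mem' fun i => ⟨by positivity, div_le_one_of_le₀ ?_ (Nat.cast_nonneg _)⟩
      rw [← ncard_coe_finset]
      exact_mod_cast Set.ncard_le_ncard inter_subset_right (Y i).finite_toSet
    obtain ⟨r, -, hr⟩ := isCompact_Icc.ultrafilter_le_nhds _ h3
    exact ⟨r, hr⟩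
  choose m hm using hlim
  exact ⟨m, h1, h2, hm⟩

theorem Blk.pos (h : Blk Y U m) : ∀ᶠ i in (U : Filter ι), (0 : ℝ) < (Y i).card := by
  filter_upwards [h.big.eventually_ge_atTop 1] with i hi
  exact_mod_cast hi

theorem Blk.mean (h : Blk Y U m) : Mean m := by
  refine ⟨fun C => ge_of_tendsto' (h.lim C) fun Y => by positivity, ?_, fun C D hd => ?_⟩
  · refine tendsto_nhds_unique_of_eventuallyEq (h.lim _) tendsto_const_nhds ?_
    filter_upwards [h.pos] with i hi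
    simp [hi.ne']
  · refine tendsto_nhds_unique_of_eventuallyEq (h.lim _) ((h.lim C).add (h.lim D)) ?_
    refine Eventually.of_forall fun i => ?_
    simp only
    rw [union_inter_distrib_right, Set.ncard_union_eq
      (hd.mono inter_subset_left inter_subset_left) (fin_inter _ _) (fin_inter _ _),
      Nat.cast_add, add_div]

theorem Blk.le_of (h : Blk Y U m) {A C D : Set Ω}
    (hc : ∀ᶠ i in (U : Filter ι), (A ∩ Y i).ncard ≤ (C ∩ Y i).ncard + (D ∩ Y i).ncard + 1) :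
    m A ≤ m C + m D := by
  have h0 : Tendsto (fun i => (1 : ℝ) / (Y i).card) U (𝓝 0) :=
    tendsto_one_div_atTop_nhds_zero_nat.comp h.big
  have h1 := ((h.lim C).add (h.lim D)).add h0
  rw [add_zero] at h1
  refine le_of_tendsto_of_tendsto (h.lim A) h1 ?_
  filter_upwards [hc] with i hi
  rw [← add_div, ← add_div]
  refine div_le_div_of_nonneg_right ?_ (Nat.cast_nonneg _)
  exact_mod_cast hi

theorem Blk.null_of (h : Blk Y U m) {A C : Set Ω} (hC : m C = 0)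
    (hc : ∀ᶠ i in (U : Filter ι), (A ∩ Y i).ncard ≤ 2 * (C ∩ Y i).ncard + 1) : m A = 0 := by
  have := h.le_of (A := A) (C := C) (D := C) (hc.mono fun i hi => by omega)
  exact le_antisymm (by linarith) (h.mean.nonneg _)

theorem Blk.null_sel (h : Blk Y U m) {A : Set Ω}
    (hc : ∀ᶠ i in (U : Filter ι), (A ∩ Y i).Subsingleton) : m A = 0 :=
  h.null_of h.mean.empty (hc.mono fun i hi =>
    ((Set.ncard_le_one (fin_inter _ _)).2 hi).trans (by omega))

theorem Mean.idl (h : Mean m) : IsIdl {C | m C = 0} where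
  empty := h.empty
  mono := fun {A B} h1 h2 => le_antisymm (h2 ▸ h.mono h1) (h.nonneg _)
  union := fun {A B} h1 h2 => le_antisymm (by
    have := h.union_le A B
    rw [h1, h2] at this
    linarith) (h.nonneg _)

theorem Blk.out (h : Blk Y U m) {K : Set ι} (hK : K ∈ U) {A : Set Ω}
    (hA : ∀ i ∈ K, ∀ x ∈ A, x ∉ Y i) : m A = 0 :=
  h.null_sel (Filter.mem_of_superset hK fun i hi _ hx => absurd hx.2 (hA i hi _ hx.1))

theorem Blk.down (h : Blk Y U m) [LinearOrder ι] [WellFoundedLT ι] {f : Ω → Ω} {B A : Set Ω}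
    (hf : Le {C | m C = 0} f B A) : m {x ∈ B | ∃ i j, x ∈ Y i ∧ f x ∈ Y j ∧ j < i} = 0 := by
  set D := {x ∈ B | ∃ i j, x ∈ Y i ∧ f x ∈ Y j ∧ j < i} with hD
  let c : ι → Prop := (wellFounded_lt (α := ι)).fix (C := fun _ => Prop) fun i r =>
    (D ∩ Y i).ncard ≤ 2 * ({x ∈ D | ∃ j, ∃ hj : j < i, f x ∈ Y j ∧ ¬ r j hj} ∩ Y i).ncard
  have hc : ∀ i, c i ↔
      (D ∩ Y i).ncard ≤ 2 * ({x ∈ D | ∃ j, ∃ _ : j < i, f x ∈ Y j ∧ ¬ c j} ∩ Y i).ncard := by
    intro i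
    exact iff_of_eq (WellFounded.fix_eq _ _ i)
  have key : ∀ K ∈ U, (∀ i ∈ K, (D ∩ Y i).ncard ≤
      2 * ({x ∈ D | ∃ j, f x ∈ Y j ∧ j ∉ K} ∩ Y i).ncard) → m D = 0 := by
    intro K hK hK'
    refine h.null_of (C := {x ∈ D | ∃ j, f x ∈ Y j ∧ j ∉ K}) ?_
      (Filter.mem_of_superset hK fun i hi => (hK' i hi).trans (Nat.le_succ _))
    refine (hf.2.2 _ fun x hx => hx.1.1).2 (h.out hK ?_)
    rintro i hi _ ⟨x, ⟨-, j, h1, h2⟩, rfl⟩ h3
    exact h2 (h.disj _ _ _ h3 h1 ▸ hi)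
  rcases U.mem_or_compl_mem {i | c i} with hK | hK
  · refine key _ hK fun i hi => ((hc i).1 hi).trans (Nat.mul_le_mul_left _ ?_)
    refine Set.ncard_le_ncard ?_ (fin_inter _ _)
    rintro x ⟨⟨h1, j, -, h2⟩, h3⟩
    exact ⟨⟨h1, j, h2⟩, h3⟩
  · refine key _ hK fun i hi => ?_
    have h1 := mt (hc i).2 hi
    have h2 : (D ∩ Y i).ncard ≤ (({x ∈ D | ∃ j, ∃ _ : j < i, f x ∈ Y j ∧ ¬ c j} ∩ Y i) ∪
        ({x ∈ D | ∃ j, f x ∈ Y j ∧ j ∉ {i | c i}ᶜ} ∩ Y i)).ncard := by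
      refine Set.ncard_le_ncard ?_ ((fin_inter _ _).union (fin_inter _ _))
      rintro x ⟨hx, hx'⟩
      obtain ⟨-, i', j, h3, h4, h5⟩ := id hx
      obtain rfl := h.disj _ _ _ h3 hx'
      by_cases h6 : c j
      · exact Or.inr ⟨⟨hx, j, h4, fun h7 => h7 h6⟩, hx'⟩
      · exact Or.inl ⟨⟨hx, j, h5, h4, h6⟩, hx'⟩
    have h3 := h2.trans (Set.ncard_union_le _ _)
    omega

theorem Blk.inv (h : Blk Y U m) : Inv {C | m C = 0} m := by
  refine ⟨h.mean, fun _ => Iff.rfl, fun f B A hf => ?_⟩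
  obtain ⟨_, _⟩ := exists_wellFoundedLT ι
  have hI := h.mean.idl
  obtain ⟨g, hg, hg'⟩ := hf.inv
  have h0 : m {x | ∀ i, x ∉ Y i} = 0 := h.out Filter.univ_mem fun i _ x hx => hx i
  have h1 := hI.union (hI.union h0 (hf.pre hI h0)) (hI.union (h.down hf) (hf.pre hI (h.down hg)))
  have h2 : m {x ∈ B | ¬ ∃ i, x ∈ Y i ∧ f x ∈ Y i} = 0 := by
    refine hI.mono (fun x hx => ?_) h1
    by_cases a1 : ∃ i, x ∈ Y i
    swap
    · exact Or.inl (Or.inl fun i hi => a1 ⟨i, hi⟩)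
    by_cases a2 : ∃ j, f x ∈ Y j
    swap
    · exact Or.inl (Or.inr ⟨hx.1, fun i hi => a2 ⟨i, hi⟩⟩)
    obtain ⟨i, hi⟩ := a1
    obtain ⟨j, hj⟩ := a2
    rcases lt_trichotomy j i with a3 | a3 | a3
    · exact Or.inr (Or.inl ⟨hx.1, i, j, hi, hj, a3⟩)
    · exact absurd ⟨i, hi, a3 ▸ hj⟩ hx.2
    · exact Or.inr (Or.inr ⟨hx.1, ⟨x, hx.1, rfl⟩, j, i, hj, by rwa [hg' x hx.1], a3⟩)
  have h3 := h.le_of (A := B) (C := f '' B) (D := {x ∈ B | ¬ ∃ i, x ∈ Y i ∧ f x ∈ Y i})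
    (Eventually.of_forall fun i => by
      have a1 : ({x ∈ B | f x ∈ Y i} ∩ Y i).ncard ≤ (f '' B ∩ Y i).ncard :=
        Set.ncard_le_ncard_of_injOn f (fun x hx => ⟨⟨x, hx.1.1, rfl⟩, hx.1.2⟩)
          (hf.1.mono fun x hx => hx.1.1) (fin_inter _ _)
      have a2 : (B ∩ Y i).ncard ≤ (({x ∈ B | f x ∈ Y i} ∩ Y i) ∪
          ({x ∈ B | ¬ ∃ i, x ∈ Y i ∧ f x ∈ Y i} ∩ Y i)).ncard := by
        refine Set.ncard_le_ncard ?_ ((fin_inter _ _).union (fin_inter _ _))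
        rintro x ⟨hx, hx'⟩
        by_cases a3 : f x ∈ Y i
        · exact Or.inl ⟨⟨hx, a3⟩, hx'⟩
        · refine Or.inr ⟨⟨hx, ?_⟩, hx'⟩
          rintro ⟨j, a4, a5⟩
          exact a3 (h.disj _ _ _ a4 hx' ▸ a5)
      have a3 := a2.trans (Set.ncard_union_le _ _)
      omega)
  linarith

theorem Blk.split (h : Blk Y U m) (A : Set Ω) (hA : A ∉ {C | m C = 0}) :
    ∃ C ⊆ A, C ∉ {C | m C = 0} ∧ A \ C ∉ {C | m C = 0} := by
  have h1 : ∀ i, ∃ C ⊆ A ∩ Y i, C.ncard = (A ∩ Y i).ncard / 2 := fun i =>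
    Set.exists_subset_card_eq (Nat.div_le_self _ _)
  choose C hC hC' using h1
  have h2 : ∀ i, (⋃ j, C j) ∩ Y i = C i := fun i => by
    refine Subset.antisymm ?_ fun x hx => ⟨mem_iUnion.2 ⟨i, hx⟩, (hC i hx).2⟩
    rintro x ⟨hx, hx'⟩
    obtain ⟨j, hj⟩ := mem_iUnion.1 hx
    exact h.disj _ _ _ (hC j hj).2 hx' ▸ hj
  refine ⟨⋃ j, C j, iUnion_subset fun j => (hC j).trans inter_subset_left, fun h3 => hA ?_,
    fun h3 => hA ?_⟩
  · refine h.null_of h3 (Eventually.of_forall fun i => ?_)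
    rw [h2, hC']
    omega
  · refine h.null_of h3 (Eventually.of_forall fun i => ?_)
    have e : (A \ ⋃ j, C j) ∩ Y i = (A ∩ Y i) \ C i := by
      rw [← h2 i]
      ext x
      simp only [mem_inter_iff, Set.mem_sdiff]
      tauto
    have := Set.ncard_sdiff_add_ncard_of_subset (hC i) (fin_inter _ _)
    rw [e]
    rw [hC'] at this
    omega

theorem Blk.homI (h : Blk Y U m) : HomI {C | m C = 0} := by
  classical
  intro A hA
  have hp : 0 < m A := h.inv.pos hA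
  obtain ⟨r, hr⟩ := exists_nat_one_div_lt hp
  have hK : {i | (Y i).card ≤ (r + 1) * (A ∩ Y i).ncard} ∈ U := by
    filter_upwards [(h.lim A).eventually (lt_mem_nhds hr), h.pos] with i h1 h2
    rw [div_lt_div_iff₀ (by positivity) h2] at h1
    have : ((Y i).card : ℝ) ≤ (r + 1) * (A ∩ Y i).ncard := by linarith
    exact_mod_cast this
  set K := {i | (Y i).card ≤ (r + 1) * (A ∩ Y i).ncard} with hK'
  have h1 : ∀ i, ∃ e : Ω → Fin (r + 1) × Ω, i ∈ K →
      InjOn e (Y i) ∧ ∀ x ∈ Y i, (e x).2 ∈ A ∩ Y i := by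
    intro i
    by_cases hi : i ∈ K
    swap
    · exact ⟨fun x => (0, x), fun h2 => absurd h2 hi⟩
    obtain ⟨e, he⟩ := Function.Embedding.exists_of_card_le_finset (α := Y i)
      (s := (Finset.univ : Finset (Fin (r + 1))) ×ˢ (fin_inter A (Y i)).toFinset) (by
        rw [Finset.card_product, Finset.card_univ, Fintype.card_fin, Fintype.card_coe,
          ← Set.ncard_eq_toFinset_card _ (fin_inter A (Y i))]
        exact hi)
    refine ⟨fun x => if hx : x ∈ Y i then e ⟨x, hx⟩ else (0, x), fun _ => ⟨?_, fun x hx => ?_⟩⟩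
    · intro x hx y hy hxy
      simp only [Finset.mem_coe.1 hx, Finset.mem_coe.1 hy, dif_pos] at hxy
      exact congrArg Subtype.val (e.injective hxy)
    · simp only [hx, dif_pos]
      simpa using he ⟨⟨x, hx⟩, rfl⟩
  choose e he using h1
  let f : Ω → Ω := fun x => if hx : ∃ i, x ∈ Y i then (e hx.choose x).2 else x
  have hf : ∀ i, ∀ x ∈ Y i, f x = (e i x).2 := fun i x hx => by
    have h2 : ∃ i, x ∈ Y i := ⟨i, hx⟩
    simp only [f, h2, dif_pos]
    rw [h.disj _ _ _ h2.choose_spec hx]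
  refine ⟨r + 1, fun k => {x | ∃ i ∈ K, x ∈ Y i ∧ (e i x).1 = k}, fun _ => f, ?_, fun k => ?_⟩
  · exact h.out hK fun i hi x hx hx' => hx (mem_iUnion.2 ⟨_, i, hi, hx', rfl⟩)
  have inj : InjOn f {x | ∃ i ∈ K, x ∈ Y i ∧ (e i x).1 = k} := by
    rintro x ⟨i, hi, hx, hx'⟩ y ⟨j, hj, hy, hy'⟩ hxy
    rw [hf i x hx, hf j y hy] at hxy
    obtain rfl : i = j := h.disj _ _ _ ((he i hi).2 x hx).2 (hxy ▸ ((he j hj).2 y hy).2)
    exact (he i hi).1 hx hy (Prod.ext (hx'.trans hy'.symm) hxy)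
  refine ⟨inj, ?_, fun C hC => ?_⟩
  · rintro x ⟨i, hi, hx, -⟩
    show f x ∈ A
    rw [hf i x hx]
    exact ((he i hi).2 x hx).1
  · have h2 : ∀ i, (f '' C ∩ Y i).ncard = (C ∩ Y i).ncard := fun i => by
      rw [← (inj.mono (inter_subset_left.trans hC)).ncard_image]
      congr 1
      apply Subset.antisymm
      · rintro _ ⟨⟨x, hx, rfl⟩, hx'⟩
        obtain ⟨j, hj, a1, -⟩ := hC hx
        refine ⟨x, ⟨hx, ?_⟩, rfl⟩
        rw [hf j x a1] at hx'
        exact h.disj _ _ _ ((he j hj).2 x a1).2 hx' ▸ a1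
      · rintro _ ⟨x, ⟨hx, hx'⟩, rfl⟩
        obtain ⟨j, hj, a1, -⟩ := hC hx
        refine ⟨⟨x, hx, rfl⟩, ?_⟩
        rw [hf j x a1]
        exact h.disj _ _ _ a1 hx' ▸ ((he j hj).2 x a1).2
    have h3 : m (f '' C) = m C :=
      tendsto_nhds_unique (h.lim _) ((h.lim C).congr fun i => by rw [h2])
    show m C = 0 ↔ m (f '' C) = 0
    rw [h3]

theorem blocks_lt {K : Set ι} {c : Cardinal.{u}} (hc : ℵ₀ ≤ c) (hK : #K < c) :
    #(⋃ i ∈ K, (Y i : Set Ω) : Set Ω) < c := by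
  by_cases hf : K.Finite
  · exact (Cardinal.lt_aleph0_iff_set_finite.2
      (hf.biUnion fun i _ => (Y i).finite_toSet)).trans_le hc
  · have h1 : ℵ₀ ≤ #K := Cardinal.aleph0_le_mk_iff.2 (Set.infinite_coe_iff.2 hf)
    refine lt_of_le_of_lt ((mk_biUnion_le _ _).trans ?_) hK
    refine (mul_le_mul_right (ciSup_le' fun i => ?_) _).trans (Cardinal.mul_eq_self h1).le
    exact (Cardinal.lt_aleph0_iff_set_finite.2 (Y i).finite_toSet).le.trans h1

theorem Blk.sel (h : Blk Y U m) (Φ : Set Ω) : ∃ T ⊆ Φ, m T = 0 ∧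
    #{i | (Φ ∩ Y i).Nonempty} ≤ #T := by
  have h1 : ∀ i : {i | (Φ ∩ Y i).Nonempty}, ∃ x, x ∈ Φ ∩ Y i := fun i => i.2
  choose s hs using h1
  refine ⟨range s, by rintro _ ⟨i, rfl⟩; exact (hs i).1,
    h.null_sel (Eventually.of_forall fun i => ?_), (mk_range_eq s fun i j e => ?_).ge⟩
  · rintro _ ⟨⟨j, rfl⟩, hj⟩ _ ⟨⟨k, rfl⟩, hk⟩
    rw [show j = k from Subtype.ext
      ((h.disj _ _ _ (hs j).2 hj).trans (h.disj _ _ _ (hs k).2 hk).symm)]
  · exact Subtype.ext (h.disj _ _ _ (hs i).2 (e ▸ (hs j).2))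

theorem Blk.filter (h : Blk Y U m) : ∃ F : Filter Ω, F.NeBot ∧ dual F = {C | m C = 0} ∧
    Superclosed F := by
  have hI := h.mean.idl
  let F : Filter Ω :=
    { sets := {D | m Dᶜ = 0}
      univ_sets := by simpa using h.mean.empty
      sets_of_superset := fun h1 h2 => hI.mono (compl_subset_compl.2 h2) h1
      inter_sets := fun h1 h2 => by
        show m (_ ∩ _)ᶜ = 0
        rw [compl_inter]; exact hI.union h1 h2 }
  have hm : ∀ D, D ∈ F ↔ m Dᶜ = 0 := fun D => Iff.rfl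
  have hinf : ℵ₀ ≤ depth F := by
    obtain ⟨E, hE, hE'⟩ := exists_depth F
    by_contra hc
    rw [not_le, ← hE', Cardinal.lt_aleph0_iff_set_finite] at hc
    have h1 : E ∈ {C | m C = 0} := hI.finite hc fun x _ =>
      h.null_sel (Eventually.of_forall fun i => subsingleton_singleton.anti inter_subset_left)
    have h2 := h.mean.compl E
    rw [(hm E).1 hE, h1] at h2
    norm_num at h2
  have hsmall : ∀ N : Set Ω, #N < depth F → m N = 0 := by
    intro N hN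
    obtain ⟨T, t1, -, t3⟩ := h.sel N
    rcases U.mem_or_compl_mem {i | (N ∩ Y i).Nonempty} with hK | hK
    · have h1 : (⋃ i ∈ {i | (N ∩ Y i).Nonempty}, (Y i : Set Ω)) ∈ F :=
        h.out hK fun i hi x hx hx' => hx (mem_biUnion hi hx')
      exact absurd (blocks_lt hinf (t3.trans_lt (sub_lt t1 hN))) (not_lt.2 (depth_le h1))
    · exact h.out hK fun i hi x hx hx' => hi ⟨x, hx, hx'⟩
  refine ⟨F, ⟨fun hb => ?_⟩, ?_, ?_, ?_⟩
  · have : (∅ : Set Ω) ∈ F := by rw [hb]; exact Filter.mem_bot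
    rw [hm, compl_empty, h.mean.univ] at this
    exact one_ne_zero this
  · ext A; simp [dual, hm]
  · intro S hS T hT
    refine hI.mono (fun x hx => ?_) (hI.union ((hm S).1 hS) (hsmall _ hT))
    by_cases h' : x ∈ S
    · exact Or.inr (Or.inl ⟨h', hx⟩)
    · exact Or.inl h'
  · rintro ⟨Φ, h1, h2⟩
    obtain ⟨T, t1, t2, t3⟩ := h.sel Φ
    have h0 : m {x | ∀ i, x ∉ Y i} = 0 := h.out Filter.univ_mem fun i _ x hx => hx i
    have a1 := h1 Tᶜ (by rw [hm, compl_compl]; exact t2)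
    have a2 := h1 {x | ∀ i, x ∉ Y i}ᶜ (by rw [hm, compl_compl]; exact h0)
    have a4 : T ⊆ Φ \ Tᶜ := fun x hx => ⟨t1 hx, fun h3 => h3 hx⟩
    have a3 := blocks_lt (Y := Y) hinf (t3.trans_lt (sub_lt a4 a1))
    refine absurd (sub_lt (A := Φ) (fun x hx => ?_) (union_lt hinf a2 a3)) (by rw [h2]; simp)
    by_cases h3 : ∃ i, x ∈ Y i
    · obtain ⟨i, hi⟩ := h3
      exact Or.inr (mem_biUnion (show i ∈ {i | (Φ ∩ Y i).Nonempty} from ⟨x, hx, hi⟩) hi)
    · exact Or.inl ⟨hx, fun h4 => h4 fun i hi => h3 ⟨i, hi⟩⟩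

end Pool.Agent.P.MP_60ae12_al.T
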