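import Pool.Agent.P.MP_60ae12_al.T.Limit

/-! Comparability of sets in the presence of an invariant mean. -/

open Set

namespace Pool.Agent.P.MP_60ae12_al.T

universe u

variable {Ω : Type u} {J : Set (Set Ω)} {m : Set Ω → ℝ}

theorem Le.congr {f g : Ω → Ω} {B A : Set Ω} (h : Le J f B A) (e : EqOn g f B) : Le J g B A :=
  ⟨h.1.congr e.symm, h.2.1.congr e.symm, fun C hC => by
    rw [(e.mono hC).image_eq]; exact h.2.2 C hC⟩

theorem Le.glue (hI : IsIdl J) {f g : Ω → Ω} {U P A : Set Ω} (hg : Le J g U A)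
    (hf : Le J f P (A \ g '' U)) (hd : Disjoint P U) :
    ∃ k, Le J k (U ∪ P) A ∧ EqOn k g U ∧ EqOn k f P := by
  classical
  let k : Ω → Ω := fun x => if x ∈ U then g x else f x
  have e1 : EqOn k g U := fun x hx => if_pos hx
  have e2 : EqOn k f P := fun x hx => if_neg (Set.disjoint_left.1 hd hx)
  refine ⟨k, ⟨?_, ?_, fun C hC => ?_⟩, e1, e2⟩
  · rintro x (hx | hx) y (hy | hy) e
    · rw [e1 hx, e1 hy] at e; exact hg.1 hx hy e
    · rw [e1 hx, e2 hy] at e; exact absurd ⟨x, hx, e⟩ (hf.2.1 hy).2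
    · rw [e2 hx, e1 hy] at e; exact absurd ⟨y, hy, e.symm⟩ (hf.2.1 hx).2
    · rw [e2 hx, e2 hy] at e; exact hf.1 hx hy e
  · rintro x (hx | hx)
    · rw [e1 hx]; exact hg.2.1 hx
    · rw [e2 hx]; exact (hf.2.1 hx).1
  · have e : C = (C ∩ U) ∪ (C ∩ P) := by rw [← inter_union_distrib_left, inter_eq_left.2 hC]
    have e' : k '' C = g '' (C ∩ U) ∪ f '' (C ∩ P) := by
      conv_lhs => rw [e, image_union, (e1.mono inter_subset_right).image_eq,
        (e2.mono inter_subset_right).image_eq]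
    rw [e']
    constructor
    · intro hc
      exact hI.union ((hg.2.2 _ inter_subset_right).1 (hI.mono inter_subset_left hc))
        ((hf.2.2 _ inter_subset_right).1 (hI.mono inter_subset_left hc))
    · intro hc
      rw [e]
      exact hI.union ((hg.2.2 _ inter_subset_right).2 (hI.mono subset_union_left hc))
        ((hf.2.2 _ inter_subset_right).2 (hI.mono subset_union_right hc))

theorem le_empty (f : Ω → Ω) (A : Set Ω) : Le J f ∅ A :=
  ⟨injOn_empty f, mapsTo_empty f A, fun C hC => by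
    rw [subset_empty_iff.1 hC, image_empty]⟩

theorem greedy (hI : IsIdl J) (h : Inv J m) (B A U : Set Ω) (g : Ω → Ω) (hU : U ⊆ B)
    (hg : Le J g U A) : ∃ U' g', (U' ⊆ B ∧ Le J g' U' A) ∧ U ⊆ U' ∧ EqOn g' g U ∧
      ∀ P f, P ⊆ B \ U → Le J f P (A \ g '' U) → m P ≤ 2 * (m U' - m U) := by
  let S : Set ℝ := {r | ∃ P f, P ⊆ B \ U ∧ Le J f P (A \ g '' U) ∧ m P = r}
  have hS : S.Nonempty := ⟨_, ∅, g, empty_subset _, le_empty _ _, rfl⟩
  have hb : BddAbove S := ⟨1, by rintro _ ⟨P, f, -, -, rfl⟩; exact h.le_one P⟩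
  have key : ∃ r ∈ S, sSup S ≤ 2 * r := by
    by_cases h0 : sSup S ≤ 0
    · exact ⟨_, ⟨∅, g, empty_subset _, le_empty _ _, rfl⟩, by rw [h.empty]; linarith⟩
    · obtain ⟨r, hr, hr'⟩ := exists_lt_of_lt_csSup hS (show sSup S / 2 < sSup S by linarith)
      exact ⟨r, hr, by linarith⟩
  obtain ⟨_, ⟨P, f, hP, hf, rfl⟩, hr⟩ := key
  have hd : Disjoint P U := Set.disjoint_left.2 fun x hx => (hP hx).2
  obtain ⟨k, hk, e1, -⟩ := hg.glue hI hf hd
  refine ⟨U ∪ P, k, ⟨union_subset hU (hP.trans sdiff_subset), hk⟩, subset_union_left, e1,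
    fun P' f' h1 h2 => ?_⟩
  have := le_csSup hb (show m P' ∈ S from ⟨P', f', h1, h2, rfl⟩)
  rw [h.add _ _ hd.symm]
  linarith

theorem exists_chain (hI : IsIdl J) (hh : HomI J) (h : Inv J m) (B A : Set Ω) :
    ∃ (U : ℕ → Set Ω) (G : Ω → Ω), Monotone U ∧ (∀ k, U k ⊆ B) ∧ (∀ k, Le J G (U k) A) ∧
      ((∀ C ⊆ B, (∀ k, C ∩ U k ∈ J) → C ∈ J) ∨ ∀ D ⊆ A, (∀ k, D ∩ G '' U k ∈ J) → D ∈ J) := by
  classical
  let T := {p : Set Ω × (Ω → Ω) // p.1 ⊆ B ∧ Le J p.2 p.1 A}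
  have hstep : ∀ p : T, ∃ q : T, p.1.1 ⊆ q.1.1 ∧ EqOn q.1.2 p.1.2 p.1.1 ∧
      ∀ P f, P ⊆ B \ p.1.1 → Le J f P (A \ p.1.2 '' p.1.1) →
        m P ≤ 2 * (m q.1.1 - m p.1.1) := by
    intro p
    obtain ⟨U', g', h1, h2⟩ := greedy hI h B A p.1.1 p.1.2 p.2.1 p.2.2
    exact ⟨⟨(U', g'), h1⟩, h2⟩
  choose nx hn using hstep
  let s : ℕ → T := fun k => nx^[k] ⟨(∅, id), empty_subset _, le_empty _ _⟩
  have hs : ∀ k, s (k + 1) = nx (s k) := fun k => Function.iterate_succ_apply' _ _ _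
  let U : ℕ → Set Ω := fun k => (s k).1.1
  let g : ℕ → Ω → Ω := fun k => (s k).1.2
  have hU : Monotone U := monotone_nat_of_le_succ fun k => by
    show (s k).1.1 ⊆ (s (k + 1)).1.1
    rw [hs]; exact (hn _).1
  have hg : ∀ j k, j ≤ k → EqOn (g k) (g j) (U j) := by
    intro j k hjk
    induction hjk with
    | refl => exact fun _ _ => rfl
    | @step k hk ih =>
      intro x hx
      rw [← ih hx]
      show (s (k + 1)).1.2 x = (s k).1.2 x
      rw [hs]; exact (hn _).2.1 (hU hk hx)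
  let G : Ω → Ω := fun x => if hx : ∃ k, x ∈ U k then g (Nat.find hx) x else x
  have hG : ∀ k, EqOn G (g k) (U k) := by
    intro k x hx
    have h1 : ∃ k, x ∈ U k := ⟨k, hx⟩
    simp only [G, h1, dif_pos]
    exact (hg _ _ (Nat.find_min' h1 hx) (Nat.find_spec h1)).symm
  refine ⟨U, G, hU, fun k => (s k).2.1, fun k => (s k).2.2.congr (hG k), ?_⟩
  by_contra hc
  push Not at hc
  obtain ⟨⟨C, hC, hC1, hC2⟩, D, hD, hD1, hD2⟩ := hc
  obtain ⟨n, B', f, hB, hf⟩ := hh D hD2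
  have h1 : ∃ i, C ∩ B' i ∉ J := by
    by_contra h2
    push Not at h2
    refine hC2 (hI.mono (fun x hx => ?_) (hI.union (hI.iUnion h2) hB))
    by_cases h3 : x ∈ ⋃ i, B' i
    · obtain ⟨i, hi⟩ := mem_iUnion.1 h3
      exact Or.inl (mem_iUnion.2 ⟨i, hx, hi⟩)
    · exact Or.inr h3
  obtain ⟨i, hi⟩ := h1
  have hc := h.pos hi
  set c := m (C ∩ B' i) with hc'
  have hfi : Le J (f i) (B' i) D := hf i
  have h2 : ∀ k, c ≤ 2 * (m (U (k + 1)) - m (U k)) := by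
    intro k
    have hN : C ∩ U k ∪ B' i ∩ f i ⁻¹' (D ∩ G '' U k) ∈ J :=
      hI.union (hC1 k) (hfi.pre hI (hD1 k))
    have h3 := (hn (s k)).2.2 ((C ∩ B' i) \ (C ∩ U k ∪ B' i ∩ f i ⁻¹' (D ∩ G '' U k))) (f i)
      (fun x hx => ⟨hC hx.1.1, fun h4 => hx.2 (Or.inl ⟨hx.1.1, h4⟩)⟩)
      (hfi.mono (fun x hx => hx.1.2) fun x hx => ⟨hD (hfi.2.1 hx.1.2), fun h4 =>
        hx.2 (Or.inr ⟨hx.1.2, hfi.2.1 hx.1.2, by rw [(hG k).image_eq]; exact h4⟩)⟩)
    rw [h.diff_null _ ((h.null _).1 hN), ← hs] at h3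
    exact h3
  have h3 : ∀ k : ℕ, k * c ≤ 2 * m (U k) := by
    intro k
    induction k with
    | zero => simpa using h.nonneg _
    | succ k ih => have := h2 k; push_cast; linarith
  obtain ⟨k, hk⟩ := exists_nat_gt (2 / c)
  have h4 := h3 k
  have h5 := h.le_one (U k)
  rw [div_lt_iff₀ hc] at hk
  linarith

theorem glue_chain (hI : IsIdl J) (h : Inv J m) {U : ℕ → Set Ω} {G : Ω → Ω} {B A : Set Ω}
    (hU : Monotone U) (hB : ∀ k, U k ⊆ B) (hG : ∀ k, Le J G (U k) A)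
    (hR : ∀ C ⊆ B, (∀ k, C ∩ U k ∈ J) → C ∈ J) : Sub J B A := by
  have hinj : InjOn G (⋃ k, U k) := by
    intro x hx y hy e
    obtain ⟨j, hj⟩ := mem_iUnion.1 hx
    obtain ⟨k, hk⟩ := mem_iUnion.1 hy
    exact (hG (max j k)).1 (hU (le_max_left _ _) hj) (hU (le_max_right _ _) hk) e
  let S : Set ℝ := {r | ∃ D, (∀ k, D ∩ G '' U k ∈ J) ∧ m D = r}
  have hS : S.Nonempty := ⟨_, ∅, fun k => by simpa using hI.empty, rfl⟩
  have hb : BddAbove S := ⟨1, by rintro _ ⟨P, -, rfl⟩; exact h.le_one P⟩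
  have h1 : ∀ j : ℕ, ∃ D, (∀ k, D ∩ G '' U k ∈ J) ∧ sSup S - 1 / ((j : ℝ) + 1) < m D := by
    intro j
    obtain ⟨_, ⟨D, hD, rfl⟩, hr⟩ := exists_lt_of_lt_csSup hS
      (show sSup S - 1 / ((j : ℝ) + 1) < sSup S by
        have : (0 : ℝ) < 1 / ((j : ℝ) + 1) := by positivity
        linarith)
    exact ⟨D, hD, hr⟩
  choose D hD hD' using h1
  let Z : Set Ω := ⋃ j, D j \ G '' U j
  have hZ : ∀ k, Z ∩ G '' U k ∈ J := by
    intro k
    refine hI.mono ?_ (hI.iUnion (ι := Fin k) fun j => hD j k)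
    rintro x ⟨hx, hx'⟩
    obtain ⟨j, hj⟩ := mem_iUnion.1 hx
    have : j < k := by
      by_contra hc
      exact hj.2 (image_mono (hU (not_lt.1 hc)) hx')
    exact mem_iUnion.2 ⟨⟨j, this⟩, hj.1, hx'⟩
  have hZ' : sSup S ≤ m Z := by
    refine le_of_forall_pos_le_add fun ε hε => ?_
    obtain ⟨j, hj⟩ := exists_nat_one_div_lt hε
    have h2 := h.split (D j) (G '' U j)
    have h3 := (h.null _).1 (hD j j)
    have h4 : m (D j \ G '' U j) ≤ m Z := h.mono (subset_iUnion (fun j => D j \ G '' U j) j)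
    have := hD' j
    linarith
  have hback : ∀ C ⊆ ⋃ k, U k, (∀ k, G '' C ∩ G '' U k ∈ J) → C ∈ J := fun C hC hC' =>
    hR C (hC.trans (iUnion_subset hB)) fun k => ((hG k).2.2 _ inter_subset_right).2
      (hI.mono (image_inter_subset _ _ _) (hC' k))
  have hN1 : B \ ⋃ k, U k ∈ J := hR _ sdiff_subset fun k =>
    hI.mono (fun x hx => absurd (mem_iUnion.2 ⟨k, hx.2⟩) hx.1.2) hI.empty
  have hN2 : (⋃ k, U k) ∩ G ⁻¹' Z ∈ J := hback _ inter_subset_left fun k =>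
    hI.mono (inter_subset_inter_left _ (by rintro _ ⟨x, hx, rfl⟩; exact hx.2)) (hZ k)
  have hsub : B \ (B \ (⋃ k, U k) ∪ (⋃ k, U k) ∩ G ⁻¹' Z) ⊆ ⋃ k, U k := fun x hx => by
    by_contra hc
    exact hx.2 (Or.inl ⟨hx.1, hc⟩)
  refine ⟨_, hI.union hN1 hN2, G, hinj.mono hsub, fun x hx => ?_, fun C hC => ⟨fun hc => ?_,
    fun hc => hback C (hC.trans hsub) fun k => hI.mono inter_subset_left hc⟩⟩
  · obtain ⟨k, hk⟩ := mem_iUnion.1 (hsub hx)
    exact (hG k).2.1 hk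
  · have hd : Disjoint Z (G '' C) := by
      rw [Set.disjoint_right]
      rintro _ ⟨x, hx, rfl⟩ hz
      exact (hC hx).2 (Or.inr ⟨hsub (hC hx), hz⟩)
    have h2 : m (Z ∪ G '' C) ∈ S := by
      refine ⟨_, fun k => ?_, rfl⟩
      rw [union_inter_distrib_right, ← hinj.image_inter (hC.trans hsub) (subset_iUnion U k)]
      exact hI.union (hZ k) (((hG k).2.2 _ inter_subset_right).1 (hI.mono inter_subset_left hc))
    have h3 := le_csSup hb h2
    rw [h.add _ _ hd] at h3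
    exact (h.null _).2 (le_antisymm (by linarith) (h.nonneg _))

theorem comparable (hI : IsIdl J) (hh : HomI J) (h : Inv J m) (B A : Set Ω) :
    Sub J B A ∨ Sub J A B := by
  obtain ⟨U, G, hU, hB, hG, hR | hR⟩ := exists_chain hI hh h B A
  · exact Or.inl (glue_chain hI h hU hB hG hR)
  · right
    classical
    have hinj : InjOn G (⋃ k, U k) := by
      intro x hx y hy e
      obtain ⟨j, hj⟩ := mem_iUnion.1 hx
      obtain ⟨k, hk⟩ := mem_iUnion.1 hy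
      exact (hG (max j k)).1 (hU (le_max_left _ _) hj) (hU (le_max_right _ _) hk) e
    have hg : ∃ g : Ω → Ω, ∀ x ∈ ⋃ k, U k, g (G x) = x := by
      refine ⟨fun y => if hy : ∃ x ∈ ⋃ k, U k, G x = y then hy.choose else y, fun x hx => ?_⟩
      have hy : ∃ x' ∈ ⋃ k, U k, G x' = G x := ⟨x, hx, rfl⟩
      simp only [hy, dif_pos]
      exact hinj hy.choose_spec.1 hx hy.choose_spec.2
    obtain ⟨g, hg⟩ := hg
    refine glue_chain (U := fun k => G '' U k) (G := g) hI h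
      (fun j k hjk => image_mono (hU hjk)) (fun k => (hG k).2.1.image_subset) (fun k => ?_) hR
    obtain ⟨g', h1, h2⟩ := (hG k).inv
    refine (h1.mono Subset.rfl fun x hx => hB k (h1.2.1 hx)).congr ?_
    rintro _ ⟨x, hx, rfl⟩
    rw [h2 x hx, hg x (mem_iUnion.2 ⟨k, hx⟩)]

theorem sub_of_le (hI : IsIdl J) (hh : HomI J) (h : Inv J m) {B A : Set Ω} (hle : m B ≤ m A) :
    Sub J B A := by
  rcases comparable hI hh h B A with h1 | ⟨N, hN, f, hf⟩
  · exact h1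
  · obtain ⟨g, hg, -⟩ := hf.inv
    have h2 := h.image hf
    rw [h.diff_null _ ((h.null _).1 hN)] at h2
    have h3 := h.split B (f '' (A \ N))
    rw [inter_eq_right.2 hf.2.1.image_subset] at h3
    have h4 := h.nonneg (B \ f '' (A \ N))
    refine ⟨B \ f '' (A \ N), (h.null _).2 (by linarith), g, hg.mono (fun x hx => ?_) ?_⟩
    · by_contra hc
      exact hx.2 ⟨hx.1, hc⟩
    · intro x hx
      refine (hg.2.1 ?_).1
      by_contra hc
      exact hx.2 ⟨hx.1, hc⟩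

end Pool.Agent.P.MP_60ae12_al.T
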