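import Pool.Agent.P.MP_60ae12_al.T.Types

namespace Pool.Agent.P.MP_60ae12_al.T

universe u

/-- The stabilizer of a (proper) filter `F` on an arbitrary set is a maximal subgroup of the
symmetric group exactly in the three listed cases. -/
theorem classif {Ω : Type u} (F : Filter Ω) (hF : F.NeBot) :
    IsCoatom (stab F) ↔
      (∃ K : Set Ω, K.Nonempty ∧ Kᶜ.Nonempty ∧ (K.Finite ∨ Kᶜ.Finite) ∧
        (Cardinal.mk K ≠ Cardinal.mk (Kᶜ : Set Ω) ∨ Cardinal.mk Ω = 2) ∧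
        ∃ μ : Cardinal.{u}, 1 < μ ∧
          ∀ Δ : Set Ω, Δ ∈ F ↔ K ⊆ Δ ∧ Cardinal.mk (Δᶜ : Set Ω) < μ) ∨
      (∃ Φ : Set Ω, Φ.Infinite ∧ Cardinal.mk Φ < Cardinal.mk Ω ∧
        ((∃ μ : Cardinal.{u}, Cardinal.mk Φ < μ ∧
          ∀ Δ : Set Ω, Δ ∈ F ↔
            Cardinal.mk (Φ \ Δ : Set Ω) < Cardinal.mk Φ ∧ Cardinal.mk (Δᶜ : Set Ω) < μ) ∨
        ∀ Δ : Set Ω, Δ ∈ F ↔ Cardinal.mk (Φᶜ \ Δ : Set Ω) < Cardinal.mk Φ)) ∨
      (∃ F' : Filter Ω, F'.NeBot ∧ Superclosed F' ∧ Homog F' ∧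
        ∃ μ : Cardinal.{u}, depth F' < μ ∧
          ∀ Δ : Set Ω, Δ ∈ F ↔ Δ ∈ F' ∧ Cardinal.mk (Δᶜ : Set Ω) < μ) := by
  rw [stab_eq]
  refine Iff.trans ⟨fam_of_coatom (dual_idl F) (dual_proper hF), coatom_of_fam⟩ ?_
  have e : ∀ Φ Δ : Set Ω, Δᶜ ∩ Φ = Φ \ Δ := fun Φ Δ => by
    ext x; simp [and_comm]
  refine or_congr ?_ (or_congr ?_ ?_)
  · refine exists_congr fun K => ?_
    refine and_congr_right' (and_congr_right' (and_congr_right' (and_congr_right' ?_)))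
    refine exists_congr fun μ => and_congr_right' ?_
    rw [forall_compl]
    simp only [← mem_iff_dual, Set.compl_subset_compl]
  · refine exists_congr fun Φ => ?_
    rw [Cardinal.aleph0_le_mk_iff, Set.infinite_coe_iff]
    refine and_congr_right' (and_congr_right' (or_congr ?_ ?_))
    · refine exists_congr fun μ => and_congr_right' ?_
      rw [forall_compl]
      simp only [← mem_iff_dual, alm, Set.mem_ofPred_eq, e]
    · rw [Set.ext_iff, forall_compl]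
      simp only [← mem_iff_dual, alm, Set.mem_ofPred_eq, e]
  · constructor
    · rintro ⟨J, ν, E, h1, h2, h3, μ, hμ, hI⟩
      obtain ⟨F', f1, rfl, rfl, f4⟩ := superclosed_of_good h1 h2
      refine ⟨F', f1, f4, (homog_iff F').2 h3, μ, hμ, fun Δ => ?_⟩
      rw [mem_iff_dual, hI, ← mem_iff_dual]
    · rintro ⟨F', f1, f2, f3, μ, hμ, hI⟩
      obtain ⟨E, h1, h2⟩ := good_of_superclosed f1 f2
      refine ⟨_, _, E, h1, h2, (homog_iff F').1 f3, μ, hμ, ?_⟩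
      rw [forall_compl]
      intro Δ
      rw [← mem_iff_dual, hI, ← mem_iff_dual]

end Pool.Agent.P.MP_60ae12_al.T
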