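import Pool.Agent.P.MP_60ae12_al.Defs

/-! The three types of filters with maximal stabilizer. -/

namespace Pool.Agent.P.MP_60ae12_al.T

universe u

variable {Ω : Type u}

/-- The restrictions of `F` to `A` and to `B` are isomorphic: some bijection from `A` onto `B`
preserves and reflects `F`-small sets. -/
def Iso (F : Filter Ω) (A B : Set Ω) : Prop :=
  ∃ f : Ω → Ω, Set.BijOn f A B ∧ ∀ C : Set Ω, C ⊆ A → (Cᶜ ∈ F ↔ (f '' C)ᶜ ∈ F)

/-- `F` is the intersection of finitely many images of one ultrafilter under permutations. -/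
def TypeI (F : Filter Ω) : Prop :=
  ∃ (U : Ultrafilter Ω) (n : ℕ) (g : Fin n → Equiv.Perm Ω),
    ∀ Δ : Set Ω, Δ ∈ F ↔ ∀ i, Δ ∈ U.map (g i)

/-- `F` is the filter of sets of measure one for a finitely additive probability `m` on all
subsets that takes all intermediate values, and two restrictions of `F` are isomorphic exactly
when the two sets have the same cardinality and the same measure. -/
def TypeII (F : Filter Ω) : Prop :=
  ∃ m : Set Ω → ℝ, (∀ A, 0 ≤ m A) ∧ m Set.univ = 1 ∧
    (∀ A B, Disjoint A B → m (A ∪ B) = m A + m B) ∧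
    (∀ (A : Set Ω) (t : ℝ), 0 ≤ t → t ≤ m A → ∃ B, B ⊆ A ∧ m B = t) ∧
    (∀ Δ : Set Ω, Δ ∈ F ↔ m Δ = 1) ∧
    ∀ A B : Set Ω, Iso F A B ↔ Cardinal.mk A = Cardinal.mk B ∧ m A = m B

/-- `F` is homogeneous: its restrictions to any two sets of the same cardinality that are not
`F`-small are isomorphic. -/
def TypeIII (F : Filter Ω) : Prop :=
  ∀ A B : Set Ω, Aᶜ ∉ F → Bᶜ ∉ F → Cardinal.mk A = Cardinal.mk B → Iso F A B

end Pool.Agent.P.MP_60ae12_al.T
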