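import Pool.Agent.P.MP_60ae12_al.T.Block

/-! Type II from an invariant mean, and the exclusion of the other types. -/

open Set
open Cardinal hiding univ

namespace Pool.Agent.P.MP_60ae12_al.T

universe u

variable {Ω : Type u} {F : Filter Ω} {ν : Cardinal.{u}} {E : Set Ω} {m : Set Ω → ℝ}

theorem typeII_of_inv (h : Good (dual F) ν E) (ht : Tall (dual F) ν) (hh : HomI (dual F))
    (hm : Inv (dual F) m) (h1 : ∀ A, A ∉ dual F → ∃ C ⊆ A, C ∉ dual F ∧ A \ C ∉ dual F) :
    TypeII F := by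
  have hI := h.idl
  refine ⟨m, hm.nonneg, hm.univ, hm.add, hm.toMean.range (hm.fine hh h1), fun Δ => ?_,
    fun A B => ?_⟩
  · rw [mem_iff_dual, hm.null, hm.compl]
    constructor <;> intro h3 <;> linarith
  · rw [iso_iff]
    constructor
    · rintro ⟨k, hk, hk'⟩
      refine ⟨by rw [← hk.image_eq, mk_image_eq_of_injOn _ _ hk.injOn], ?_⟩
      rw [← hm.image hk', hk.image_eq]
    · rintro ⟨hc, he⟩
      by_cases hA : A ∈ dual F
      · have hB : B ∈ dual F := by rw [hm.null, ← he, ← hm.null]; exact hA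
        obtain ⟨k, hk⟩ := exists_bijOn hc
        exact ⟨k, hk, hk.injOn, hk.mapsTo, fun C hC => ⟨fun _ =>
          hI.mono ((image_mono hC).trans hk.image_eq.le) hB, fun _ => hI.mono hC hA⟩⟩
      · have hB : B ∉ dual F := by rw [hm.null, ← he, ← hm.null]; exact hA
        exact iso_of_sub h ht hA hB hc (sub_of_le hI hh hm he.le) (sub_of_le hI hh hm he.ge)

theorem not_typeIII (h : Good (dual F) ν E) (h2 : TypeII F) : ¬ TypeIII F := by
  intro h3
  obtain ⟨m, m1, m2, m3, m4, m5, m6⟩ := h2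
  have hm : Mean m := ⟨m1, m2, m3⟩
  have hd : ∀ C, C ∈ dual F ↔ m C = 0 := fun C => by
    show Cᶜ ∈ F ↔ _
    rw [m5, hm.compl]
    constructor <;> intro h3 <;> linarith
  have cut : ∀ C, m (C ∩ E) = m C := fun C => by
    rw [← hm.diff_null C ((hd _).1 h.hEc), sdiff_compl]
  obtain ⟨A, -, hA⟩ := m4 univ (1 / 2) (by norm_num) (by rw [m2]; norm_num)
  obtain ⟨a1, a2⟩ := card_eq_of_pos h (A := A) fun hc => by
    rw [hd, hA] at hc; norm_num at hc
  obtain ⟨b1, b2⟩ := card_eq_of_pos h h.proper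
  have := ((m6 _ _).1 (h3 _ _ a1 b1 (a2.trans b2.symm))).2
  rw [cut, cut, hA, m2] at this
  norm_num at this

theorem not_typeI (h2 : TypeII F) : ¬ TypeI F := by
  rintro ⟨U, n, g, hF⟩
  obtain ⟨m, m1, m2, m3, m4, m5, -⟩ := h2
  have hm : Mean m := ⟨m1, m2, m3⟩
  set t : ℝ := 1 / ((n : ℝ) + 1) with ht
  have t0 : 0 < t := by positivity
  have h1 : ∀ V : Ultrafilter Ω, ∀ k : ℕ, ∃ A ∈ V, m A ≤ (1 / 2) ^ k := by
    intro V k
    induction k with
    | zero => exact ⟨univ, Filter.univ_mem, by simp [m2]⟩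
    | succ k ih =>
      obtain ⟨A, hA, hA'⟩ := ih
      obtain ⟨B, hB, hB'⟩ := m4 A (m A / 2) (by linarith [m1 A]) (by linarith [m1 A])
      have e := hm.split A B
      rw [inter_eq_right.2 hB] at e
      rw [pow_succ]
      rcases V.mem_or_compl_mem B with h3 | h3
      · exact ⟨B, h3, by linarith⟩
      · exact ⟨A \ B, Filter.inter_mem hA h3, by linarith⟩
  obtain ⟨k, hk⟩ := exists_pow_lt_of_lt_one t0 (show (1 / 2 : ℝ) < 1 by norm_num)
  choose A hA hA' using fun i => h1 (U.map (g i)) k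
  have h3 := (m5 _).1 ((hF (⋃ i, A i)).2 fun i => Filter.mem_of_superset (hA i) (subset_iUnion A i))
  have h4 := hm.iUnion_le A fun i => (hA' i).trans hk.le
  have h5 : ((n : ℝ) + 1) * t = 1 := by rw [ht]; field_simp
  nlinarith

theorem coatom_of_homog (hF : F.NeBot) (hs : Superclosed F) (hh : Homog F) :
    IsCoatom (stab F) := by
  refine (classif F hF).2 (Or.inr (Or.inr ⟨F, hF, hs, hh, Order.succ #(univ : Set Ω),
    Order.lt_succ_of_le (depth_le Filter.univ_mem), fun Δ => ⟨fun h => ⟨h, ?_⟩, fun h => h.1⟩⟩))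
  exact Order.lt_succ_of_le (mk_le_mk_of_subset (subset_univ _))

end Pool.Agent.P.MP_60ae12_al.T
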