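import Pool.Agent.P.MP_60ae12_al.T.Crit

/-! Exhaustive ideals of lower semicontinuous submeasures. -/

open Set Filter Topology
open scoped ENNReal

namespace Pool.Agent.P.MP_60ae12_al.T

/-- Lower semicontinuous submeasures together with their exhaustive ideal. -/
structure Sm (φ : Set ℕ → ℝ≥0∞) (J : Set (Set ℕ)) : Prop where
  empty : φ ∅ = 0
  mono : Monotone φ
  sub : ∀ A B, φ (A ∪ B) ≤ φ A + φ B
  lsc : ∀ A, φ A = ⨆ n, φ (A ∩ Iio n)
  exh : ∀ A, A ∈ J ↔ Tendsto (fun n => φ (A ∩ Ici n)) atTop (𝓝 0)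

variable {φ : Set ℕ → ℝ≥0∞} {J : Set (Set ℕ)}

theorem Sm.biUnion_le (h : Sm φ J) (S : ℕ → Set ℕ) (s : Finset ℕ) :
    φ (⋃ k ∈ s, S k) ≤ ∑ k ∈ s, φ (S k) := by
  induction s using Finset.induction_on with
  | empty => simp [h.empty]
  | insert a s ha ih =>
    rw [Finset.set_biUnion_insert, Finset.sum_insert ha]
    exact (h.sub _ _).trans (add_le_add le_rfl ih)

theorem Sm.null_union (h : Sm φ J) {S : ℕ → Set ℕ} (h1 : ∀ k, (S k).Finite)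
    (h2 : ∀ k, S k ⊆ Ici k) (h3 : ∀ k, φ (S k) ≤ 2⁻¹ ^ k) : (⋃ k, S k) ∈ J := by
  have hs : ∑' k, φ (S k) ≠ ∞ := by
    refine ne_top_of_le_ne_top ?_ (ENNReal.tsum_le_tsum h3)
    rw [ENNReal.tsum_geometric]
    simp
  rw [h.exh, ENNReal.tendsto_atTop_zero]
  intro ε hε
  obtain ⟨K, hK⟩ := ENNReal.tendsto_atTop_zero.1 (ENNReal.tendsto_sum_nat_add _ hs) ε hε
  obtain ⟨N, hN⟩ := ((finite_Iio K).biUnion fun k _ => h1 k).bddAbove
  refine ⟨N + 1, fun n hn => le_trans ?_ (hK K le_rfl)⟩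
  rw [h.lsc]
  refine iSup_le fun l => le_trans ?_ (ENNReal.sum_le_tsum (Finset.range l))
  refine le_trans (h.mono ?_) (h.biUnion_le (fun k => S (k + K)) _)
  rintro x ⟨⟨hx, hx1⟩, hx2⟩
  obtain ⟨k, hk⟩ := mem_iUnion.1 hx
  have a1 : K ≤ k := by
    by_contra hc
    have : x ≤ N := hN (mem_biUnion (show k ∈ Iio K from not_le.1 hc) hk)
    have : n ≤ x := hx1
    omega
  have a2 : k ≤ x := h2 k hk
  have a3 : x < l := hx2
  refine mem_biUnion (show k - K ∈ (Finset.range l : Set ℕ) by simp; omega) ?_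
  rwa [Nat.sub_add_cancel a1]

theorem Sm.small (h : Sm φ J) (ht : ∀ A : Set ℕ, A.Infinite → ∃ B ⊆ A, B ∈ J ∧ B.Infinite)
    (M : ℕ) (δ : ℝ≥0∞) (hδ : 0 < δ) :
    ∃ n, ∀ S ⊆ Ici n, S.Finite → S.ncard ≤ M → φ S ≤ δ := by
  have h1 : ∀ η : ℝ≥0∞, 0 < η → ∃ n, ∀ x, n ≤ x → φ {x} ≤ η := by
    intro η hη
    by_contra hc
    push Not at hc
    have h2 : {x | η < φ {x}}.Infinite := infinite_of_forall_exists_gt fun n => by
      obtain ⟨x, hx, hx'⟩ := hc (n + 1)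
      exact ⟨x, hx', hx⟩
    obtain ⟨B, b1, b2, b3⟩ := ht _ h2
    obtain ⟨N, hN⟩ := ENNReal.tendsto_atTop_zero.1 ((h.exh B).1 b2) η hη
    obtain ⟨x, hx, hx'⟩ := b3.exists_gt N
    have b4 : ({x} : Set ℕ) ⊆ B ∩ Ici N := singleton_subset_iff.2 ⟨hx, hx'.le⟩
    exact absurd ((h.mono b4).trans (hN N le_rfl))
      (not_le.2 (b1 hx))
  obtain ⟨n, hn⟩ := h1 (δ / M) (ENNReal.div_pos hδ.ne' (ENNReal.natCast_ne_top M))
  refine ⟨n, fun S hS hf hc => ?_⟩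
  have h2 := h.biUnion_le (fun x => {x}) hf.toFinset
  rw [show (⋃ k ∈ hf.toFinset, ({k} : Set ℕ)) = S by ext x; simp] at h2
  refine h2.trans ((Finset.sum_le_card_nsmul _ _ (δ / M) fun x hx =>
    hn x (hS (by simpa using hx))).trans ?_)
  rw [← Set.ncard_eq_toFinset_card S hf, nsmul_eq_mul]
  exact (mul_le_mul_left (by exact_mod_cast hc) _).trans ENNReal.mul_div_le

theorem Sm.not_homI (h : Sm φ J) (hI : IsIdl J) (hp : univ ∉ J)
    (ht : ∀ A : Set ℕ, A.Infinite → ∃ B ⊆ A, B ∈ J ∧ B.Infinite) : ¬ HomI J := by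
  intro hh
  have h0 : ∃ ε : ℝ≥0∞, 0 < ε ∧ ∀ n, ∃ l, ε < φ (Ico n l) := by
    rw [h.exh, ENNReal.tendsto_atTop_zero] at hp
    push Not at hp
    obtain ⟨ε, hε, h1⟩ := hp
    refine ⟨ε, hε, fun n => ?_⟩
    obtain ⟨k, hk, hk'⟩ := h1 n
    have h2 : ε < φ (Ici n) := hk'.trans_le (h.mono fun x hx => hk.trans hx.2)
    rw [h.lsc, lt_iSup_iff] at h2
    exact h2
  obtain ⟨ε, hε, h1⟩ := h0
  have hstep : ∀ k n : ℕ, ∃ l, n < l ∧ ε < φ (Ico n l) ∧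
      ∀ S ⊆ Ici l, S.Finite → S.ncard ≤ k * n → φ S ≤ 2⁻¹ ^ k := by
    intro k n
    obtain ⟨l, hl⟩ := h1 n
    obtain ⟨l', hl'⟩ := h.small ht (k * n) (2⁻¹ ^ k) (ENNReal.pow_pos (by simp) k)
    refine ⟨max (n + 1) (max l l'), by omega, hl.trans_le (h.mono (Ico_subset_Ico_right
      (by omega))), fun S hS => hl' S (hS.trans (Ici_subset_Ici.2 (by omega)))⟩
  choose nx hn using hstep
  let a : ℕ → ℕ := fun k => Nat.rec 0 nx k
  have ha : ∀ k, a (k + 1) = nx k (a k) := fun k => rfl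
  have hlt : StrictMono a := strictMono_nat_of_lt_succ fun k => by rw [ha]; exact (hn _ _).1
  have hpos : ∀ s : ℕ → ℕ, (∀ k, k ≤ s k) → (⋃ k, Ico (a (s k)) (a (s k + 1))) ∉ J := by
    intro s hs hc
    obtain ⟨N, hN⟩ := ENNReal.tendsto_atTop_zero.1 ((h.exh _).1 hc) ε hε
    refine absurd (hN N le_rfl) (not_le.2 ((hn (s N) (a (s N))).2.1.trans_le (h.mono ?_)))
    exact fun x hx => ⟨mem_iUnion.2 ⟨N, hx⟩, ((hs N).trans (hlt.le_apply)).trans hx.1⟩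
  have hsm : ∀ k j, k ≤ j → ∀ S ⊆ Ici (a (j + 1)), S.Finite → S.ncard ≤ j * a j →
      φ S ≤ 2⁻¹ ^ k := fun k j hkj S h2 h3 h4 =>
    ((hn j (a j)).2.2 S h2 h3 h4).trans (pow_le_pow_right_of_le_one' (by simp) hkj)
  obtain ⟨r, B, f, hB, hf⟩ := hh _ (hpos (fun k => 4 * k) fun k => by omega)
  let D : ℕ → Set ℕ := fun k => Ico (a (4 * (k + r) + 2)) (a (4 * (k + r) + 2 + 1))
  have hD : ∀ k, D k ⊆ Ici k := fun k x hx =>
    le_trans (le_trans (by omega) (hlt.le_apply (x := 4 * (k + r) + 2))) hx.1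
  have hL : (⋃ k, ⋃ i, D k ∩ B i ∩ f i ⁻¹' Iio (a (4 * (k + r) + 1))) ∈ J := by
    have fin : ∀ k, (⋃ i, D k ∩ B i ∩ f i ⁻¹' Iio (a (4 * (k + r) + 1))).Finite := fun k =>
      (finite_Ico _ _).subset (iUnion_subset fun i x hx => hx.1.1)
    refine h.null_union fin (fun k => iUnion_subset fun i x hx => hD k hx.1.1) fun k =>
      hsm k (4 * (k + r) + 1) (by omega) _ (iUnion_subset fun i x hx => hx.1.1.1) (fin k) ?_
    refine (ncard_iUnion_le (c := a (4 * (k + r) + 1)) _ fun i => ?_).trans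
      (Nat.mul_le_mul_right _ (by omega))
    refine (Set.ncard_le_ncard_of_injOn (f i) (fun x hx => hx.2)
      ((hf i).1.mono fun x hx => hx.1.2) (finite_Iio _)).trans (by simp)
  have hH : ∀ i, (⋃ k, D k ∩ B i ∩ f i ⁻¹' Ici (a (4 * (k + r) + 3 + 1))) ∈ J := by
    intro i
    refine ((hf i).2.2 _ (iUnion_subset fun k x hx => hx.1.2)).2 ?_
    rw [image_iUnion]
    have fin : ∀ k, (D k ∩ B i ∩ f i ⁻¹' Ici (a (4 * (k + r) + 3 + 1))).Finite := fun k =>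
      (finite_Ico _ _).subset fun x hx => hx.1.1
    have sub : ∀ k, f i '' (D k ∩ B i ∩ f i ⁻¹' Ici (a (4 * (k + r) + 3 + 1))) ⊆
        Ici (a (4 * (k + r) + 3 + 1)) := fun k => by
      rintro _ ⟨x, hx, rfl⟩
      exact hx.2
    refine h.null_union (fun k => (fin k).image _) (fun k => (sub k).trans (Ici_subset_Ici.2
      (le_trans (by omega) (hlt.le_apply (x := 4 * (k + r) + 3 + 1))))) fun k =>
      hsm k (4 * (k + r) + 3) (by omega) _ (sub k) ((fin k).image _) ?_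
    refine (Set.ncard_image_le (fin k)).trans ((Set.ncard_le_ncard
      (t := Iio (a (4 * (k + r) + 3))) (fun x hx => hx.1.1.2) (finite_Iio _)).trans ?_)
    simp only [ncard_Iio_nat]
    exact Nat.le_mul_of_pos_left _ (by omega)
  refine hpos (fun k => 4 * (k + r) + 2) (fun k => by omega)
    (hI.mono (fun x hx => ?_) (hI.union (hI.union hL (hI.iUnion hH)) hB))
  obtain ⟨k, hk⟩ := mem_iUnion.1 hx
  by_cases h2 : x ∈ ⋃ i, B i
  swap
  · exact Or.inr h2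
  obtain ⟨i, hi⟩ := mem_iUnion.1 h2
  obtain ⟨j, hj⟩ := mem_iUnion.1 ((hf i).2.1 hi)
  by_cases h3 : j ≤ k + r
  · exact Or.inl (Or.inl (mem_iUnion.2 ⟨k, mem_iUnion.2 ⟨i, ⟨hk, hi⟩,
      lt_of_lt_of_le hj.2 (hlt.monotone (show 4 * j + 1 ≤ 4 * (k + r) + 1 by omega))⟩⟩))
  · exact Or.inl (Or.inr (mem_iUnion.2 ⟨i, mem_iUnion.2 ⟨k, ⟨hk, hi⟩,
      le_trans (hlt.monotone (show 4 * (k + r) + 3 + 1 ≤ 4 * j by omega)) hj.1⟩⟩))

end Pool.Agent.P.MP_60ae12_al.T
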