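import Pool.Agent.P.MP_60ae12_al.T.Comp

/-! Exact isomorphisms, atoms and the range of the mean. -/

open Set
open Cardinal hiding univ

namespace Pool.Agent.P.MP_60ae12_al.T

universe u

variable {Ω : Type u} {J : Set (Set Ω)} {m : Set Ω → ℝ} {ν : Cardinal.{u}} {E : Set Ω}

theorem le_null (hI : IsIdl J) {N M : Set Ω} (hN : N ∈ J) (hM : M ∈ J) (h : #N ≤ #M) :
    ∃ f, Le J f N M := by
  obtain ⟨M', h1, h2⟩ := exists_sub h
  obtain ⟨f, hf⟩ := exists_bijOn h2.symm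
  refine ⟨f, hf.injOn, hf.mapsTo.mono_right h1, fun C hC => ⟨fun _ => ?_, fun _ => hI.mono hC hN⟩⟩
  exact hI.mono (((image_mono hC).trans hf.image_eq.le).trans h1) hM

theorem big_null (h : Good J ν E) (ht : Tall J ν) {A : Set Ω} (hA : A ∉ J) :
    ∃ M ⊆ A, M ∈ J ∧ #M = #A ∧ ℵ₀ ≤ #M := by
  obtain ⟨M, h1, h2, h3⟩ := ht A (not_lt.1 fun hc => hA (h.small _ hc))
  have h4 : ν ≤ #(M ∪ (A \ E) : Set Ω) := h3.trans (mk_le_mk_of_subset subset_union_left)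
  refine ⟨M ∪ (A \ E), union_subset h1 sdiff_subset,
    h.idl.union h2 (h.idl.mono (fun x hx => hx.2) h.hEc), ?_, h.inf.trans h4⟩
  apply le_antisymm (mk_le_mk_of_subset (union_subset h1 sdiff_subset))
  refine sub_le (B := (M ∪ (A \ E)) ∪ E) (fun x hx => ?_)
    (union_le (h.inf.trans h4) le_rfl (h.hE.trans h4))
  by_cases hx' : x ∈ E
  · exact Or.inr hx'
  · exact Or.inl (Or.inr ⟨hx, hx'⟩)

theorem exact_of_sub (h : Good J ν E) (ht : Tall J ν) {B A : Set Ω} (hA : A ∉ J)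
    (hc : #B ≤ #A) (hs : Sub J B A) : ∃ f, Le J f B A := by
  obtain ⟨N, hN, f, hf⟩ := hs
  obtain ⟨M, h1, h2, h3, -⟩ := big_null h ht hA
  have hN' : B ∩ (N ∪ (B \ N) ∩ f ⁻¹' M) ∈ J :=
    h.idl.mono inter_subset_right (h.idl.union hN (hf.pre h.idl h2))
  set P := B ∩ (N ∪ (B \ N) ∩ f ⁻¹' M) with hP
  obtain ⟨g, hg⟩ := le_null h.idl hN' h2 ((sub_le inter_subset_left hc).trans h3.ge)
  have h4 : B \ P ⊆ B \ N := fun x hx => ⟨hx.1, fun h5 => hx.2 ⟨hx.1, Or.inl h5⟩⟩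
  have h5 : Le J f (B \ P) (A \ g '' P) := hf.mono h4 fun x hx =>
    ⟨hf.2.1 (h4 hx), fun h6 => hx.2 ⟨hx.1, Or.inr ⟨h4 hx, hg.2.1.image_subset h6⟩⟩⟩
  obtain ⟨k, hk, -⟩ := (hg.mono Subset.rfl (hg.2.1.mono_right h1)).glue h.idl h5 disjoint_sdiff_left
  rw [union_sdiff_cancel inter_subset_left] at hk
  exact ⟨k, hk⟩

theorem csb (hI : IsIdl J) {f g : Ω → Ω} {A B : Set Ω} (hf : Le J f A B) (hg : Le J g B A) :
    ∃ k, BijOn k A B ∧ Le J k A B := by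
  classical
  obtain ⟨R, hR, hR'⟩ := ctrl_fam hI (ι := Bool) (B := fun b => cond b A B)
    (A := fun b => cond b B A) (f := fun b => cond b f g) (by rintro (_ | _); exacts [hg, hf])
  obtain ⟨k, hk, hk'⟩ := Function.Embedding.schroeder_bernstein_of_rel
    (f := hf.2.1.restrict f A B) (g := hg.2.1.restrict g B A)
    (hf.2.1.restrict_inj.2 hf.1) (hg.2.1.restrict_inj.2 hg.1) (fun a b => R a.1 b.1)
    (fun a => hR' true a.1 a.2) (fun b => hR.symm _ _ (hR' false b.1 b.2))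
  have hb : BijOn (fun x => if hx : x ∈ A then (k ⟨x, hx⟩ : Ω) else x) A B := by
    refine ⟨fun x hx => ?_, fun x hx y hy e => ?_, fun y hy => ?_⟩
    · simp only [hx, dif_pos]; exact (k _).2
    · simp only [hx, hy, dif_pos] at e
      exact congrArg Subtype.val (hk.1 (Subtype.ext e))
    · obtain ⟨a, ha⟩ := hk.2 ⟨y, hy⟩
      exact ⟨a.1, a.2, by simp [ha]⟩
  refine ⟨_, hb, hR.le hI hb.injOn hb.mapsTo fun x hx => ?_⟩
  simp only [hx, dif_pos]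
  exact hk' ⟨x, hx⟩

theorem iso_of_sub (h : Good J ν E) (ht : Tall J ν) {A B : Set Ω} (hA : A ∉ J) (hB : B ∉ J)
    (hc : #A = #B) (h1 : Sub J A B) (h2 : Sub J B A) : ∃ k, BijOn k A B ∧ Le J k A B := by
  obtain ⟨f, hf⟩ := exact_of_sub h ht hB hc.le h1
  obtain ⟨g, hg⟩ := exact_of_sub h ht hA hc.ge h2
  exact csb h.idl hf hg

theorem Mean.narrow (h : Mean m) {ε t : ℝ} (hε : 0 ≤ ε) {n : ℕ} (B : Fin n → Set Ω)
    (hB : ∀ i, m (B i) ≤ ε) (s : Finset (Fin n)) : ∀ P Q : Set Ω, P ⊆ Q → m P ≤ t → t ≤ m Q →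
      m ((Q \ P) \ ⋃ i ∈ s, B i) = 0 →
      ∃ P' Q', P ⊆ P' ∧ P' ⊆ Q' ∧ Q' ⊆ Q ∧ m P' ≤ t ∧ t ≤ m Q' ∧ m Q' ≤ m P' + ε := by
  induction s using Finset.induction_on with
  | empty =>
    intro P Q h1 h2 h3 h4
    refine ⟨P, Q, Subset.rfl, h1, Subset.rfl, h2, h3, ?_⟩
    have := h.split Q P
    rw [inter_eq_right.2 h1] at this
    simp at h4
    linarith
  | insert a s _ ih =>
    intro P Q h1 h2 h3 h4
    have h5 : P ∪ (Q ∩ B a) ⊆ Q := union_subset h1 inter_subset_left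
    by_cases hc : m (P ∪ (Q ∩ B a)) ≤ t
    · obtain ⟨P', Q', k1, k2⟩ := ih _ Q h5 hc h3 (le_antisymm (h4 ▸ h.mono fun x hx => by
        rw [Finset.set_biUnion_insert]
        exact ⟨⟨hx.1.1, fun h6 => hx.1.2 (Or.inl h6)⟩,
          fun h6 => h6.elim (fun h7 => hx.1.2 (Or.inr ⟨hx.1.1, h7⟩)) hx.2⟩) (h.nonneg _))
      exact ⟨P', Q', subset_union_left.trans k1, k2⟩
    · refine ⟨P, _, Subset.rfl, subset_union_left, h5, h2, (not_le.1 hc).le, ?_⟩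
      have h6 := h.union_le P (Q ∩ B a)
      have h7 : m (Q ∩ B a) ≤ m (B a) := h.mono inter_subset_right
      have := hB a
      linarith

theorem Mean.range (h : Mean m)
    (hs : ∀ ε : ℝ, 0 < ε → ∃ (n : ℕ) (B : Fin n → Set Ω), (∀ i, m (B i) ≤ ε) ∧ m (⋃ i, B i)ᶜ = 0)
    (A : Set Ω) (t : ℝ) (h0 : 0 ≤ t) (h1 : t ≤ m A) : ∃ B, B ⊆ A ∧ m B = t := by
  let T := {p : Set Ω × Set Ω // p.1 ⊆ p.2 ∧ m p.1 ≤ t ∧ t ≤ m p.2}
  have hstep : ∀ (k : ℕ) (p : T), ∃ q : T, p.1.1 ⊆ q.1.1 ∧ q.1.2 ⊆ p.1.2 ∧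
      m q.1.2 ≤ m q.1.1 + 1 / ((k : ℝ) + 1) := by
    intro k p
    have hk : (0 : ℝ) < 1 / ((k : ℝ) + 1) := by positivity
    obtain ⟨n, B, hB, hB'⟩ := hs _ hk
    obtain ⟨P', Q', k1, k2, k3, k4, k5, k6⟩ := h.narrow hk.le B hB Finset.univ _ _ p.2.1 p.2.2.1
      p.2.2.2 (le_antisymm (hB' ▸ h.mono fun x hx => by simpa using hx.2) (h.nonneg _))
    exact ⟨⟨(P', Q'), k2, k4, k5⟩, k1, k3, k6⟩
  choose nx hn using hstep
  let s : ℕ → T := fun k => Nat.rec ⟨(∅, A), empty_subset _, h.empty ▸ h0, h1⟩ nx k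
  have hP : Monotone fun k => (s k).1.1 := monotone_nat_of_le_succ fun k => (hn k (s k)).1
  have hQ : Antitone fun k => (s k).1.2 := antitone_nat_of_succ_le fun k => (hn k (s k)).2.1
  have hPQ : ∀ k, (⋃ j, (s j).1.1) ⊆ (s k).1.2 := fun k => iUnion_subset fun j =>
    (hP (le_max_left j k)).trans ((s (max j k)).2.1.trans (hQ (le_max_right j k)))
  refine ⟨⋃ j, (s j).1.1, hPQ 0, ?_⟩
  have key : ∀ ε : ℝ, 0 < ε → m (⋃ j, (s j).1.1) ≤ t + ε ∧ t ≤ m (⋃ j, (s j).1.1) + ε := by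
    intro ε hε
    obtain ⟨k, hk⟩ := exists_nat_one_div_lt hε
    have a1 : m (s (k + 1)).1.2 ≤ m (s (k + 1)).1.1 + 1 / ((k : ℝ) + 1) := (hn k (s k)).2.2
    have a2 := h.mono (hPQ (k + 1))
    have a3 := h.mono (subset_iUnion (fun j => (s j).1.1) (k + 1))
    have a4 := (s (k + 1)).2.2.1
    have a5 := (s (k + 1)).2.2.2
    constructor <;> linarith
  exact le_antisymm (le_of_forall_pos_le_add fun ε hε => (key ε hε).1)
    (le_of_forall_pos_le_add fun ε hε => (key ε hε).2)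

theorem Inv.fine (hh : HomI J) (h : Inv J m)
    (hna : ∀ A, A ∉ J → ∃ C ⊆ A, C ∉ J ∧ A \ C ∉ J) (ε : ℝ) (hε : 0 < ε) :
    ∃ (n : ℕ) (B : Fin n → Set Ω), (∀ i, m (B i) ≤ ε) ∧ m (⋃ i, B i)ᶜ = 0 := by
  have h1 : ∀ k : ℕ, ∃ A, A ∉ J ∧ m A ≤ (1 / 2) ^ k := by
    intro k
    induction k with
    | zero =>
      refine ⟨univ, fun hc => ?_, by simp [h.univ]⟩
      have := (h.null _).1 hc
      rw [h.univ] at this
      exact one_ne_zero this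
    | succ k ih =>
      obtain ⟨A, hA, hA'⟩ := ih
      obtain ⟨C, hC, k1, k2⟩ := hna A hA
      have := h.split A C
      rw [inter_eq_right.2 hC] at this
      rw [pow_succ]
      by_cases hc : m C ≤ m (A \ C)
      · exact ⟨C, k1, by linarith⟩
      · exact ⟨A \ C, k2, by linarith⟩
  obtain ⟨k, hk⟩ := exists_pow_lt_of_lt_one hε (show (1 / 2 : ℝ) < 1 by norm_num)
  obtain ⟨A, hA, hA'⟩ := h1 k
  obtain ⟨n, B, f, hB, hf⟩ := hh A hA
  refine ⟨n, B, fun i => ?_, (h.null _).1 hB⟩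
  exact (h.le _ _ _ (hf i)).trans ((h.mono (hf i).2.1.image_subset).trans (hA'.trans hk.le))

end Pool.Agent.P.MP_60ae12_al.T
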