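import Pool.Agent.P.MP_60ae12_al.T.Mean

/-! The invariant mean as an ultrafilter limit along Følner sets. -/

open Set Filter Topology

namespace Pool.Agent.P.MP_60ae12_al.T

universe u

variable {Ω : Type u} {J : Set (Set Ω)}

/-- A mean that kills the ideal and does not decrease under local embeddings. -/
structure Inv (J : Set (Set Ω)) (m : Set Ω → ℝ) : Prop extends Mean m where
  null : ∀ A, A ∈ J ↔ m A = 0
  le : ∀ f B A, Le J f B A → m B ≤ m (f '' B)

theorem exists_ultra (hI : IsIdl J) (hh : HomI J) {A : Set Ω} (hA : A ∉ J)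
    (hn : ¬ Sub J univ A) : ∃ U : Ultrafilter (Set Ω), ∀ E, Ctrl J E → ∀ N ∈ J, ∀ ε : ℝ, 0 < ε →
      {Y | Fol E N ε Y} ∈ U := by
  have h0 : Ctrl J fun x y : Ω => x = y :=
    ⟨fun _ => rfl, fun _ _ e => e.symm, fun x => by simp,
      fun C hC => hI.mono (fun _ ⟨_, hx, e⟩ => e ▸ hx) hC⟩
  let G : Filter (Set Ω) :=
    { sets := {S | ∃ E, Ctrl J E ∧ ∃ N ∈ J, ∃ ε : ℝ, 0 < ε ∧ ∀ Y, Fol E N ε Y → Y ∈ S}
      univ_sets := ⟨_, h0, ∅, hI.empty, 1, one_pos, fun _ _ => mem_univ _⟩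
      sets_of_superset := fun ⟨E, hE, N, hN, ε, hε, h⟩ hs =>
        ⟨E, hE, N, hN, ε, hε, fun Y hY => hs (h Y hY)⟩
      inter_sets := by
        rintro S T ⟨E, hE, N, hN, ε, hε, h⟩ ⟨E', hE', N', hN', ε', hε', h'⟩
        refine ⟨_, hE.or hI hE', N ∪ N', hI.union hN hN', min ε ε', lt_min hε hε', ?_⟩
        rintro Y ⟨y1, y2, y3, y4⟩
        have hf := (hE.or hI hE').nb_fin y1
        have hy : (0 : ℝ) ≤ Y.ncard := Nat.cast_nonneg _
        refine ⟨h Y ⟨y1, y2, y3.mono_right subset_union_left, ?_⟩,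
          h' Y ⟨y1, y2, y3.mono_right subset_union_right, ?_⟩⟩
        · have : (nb E Y).ncard ≤ (nb (fun x y => E x y ∨ E' x y) Y).ncard :=
            Set.ncard_le_ncard (fun _ ⟨x, hx, e⟩ => ⟨x, hx, Or.inl e⟩) hf
          have : ((nb E Y).ncard : ℝ) ≤ (nb (fun x y => E x y ∨ E' x y) Y).ncard := by
            exact_mod_cast this
          nlinarith [min_le_left ε ε']
        · have : (nb E' Y).ncard ≤ (nb (fun x y => E x y ∨ E' x y) Y).ncard :=
            Set.ncard_le_ncard (fun _ ⟨x, hx, e⟩ => ⟨x, hx, Or.inr e⟩) hf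
          have : ((nb E' Y).ncard : ℝ) ≤ (nb (fun x y => E x y ∨ E' x y) Y).ncard := by
            exact_mod_cast this
          nlinarith [min_le_right ε ε'] }
  have hG : G.NeBot := by
    rw [← Filter.forall_mem_nonempty_iff_neBot]
    rintro S ⟨E, hE, N, hN, ε, hε, h⟩
    obtain ⟨Y, hY⟩ := exists_fol hI hh hA hn hE hN hε
    exact ⟨Y, h Y hY⟩
  exact ⟨Ultrafilter.of G, fun E hE N hN ε hε =>
    Ultrafilter.of_le G ⟨E, hE, N, hN, ε, hε, fun _ hY => hY⟩⟩

theorem exists_inv (hI : IsIdl J) (hh : HomI J) {A : Set Ω} (hA : A ∉ J)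
    (hn : ¬ Sub J univ A) : ∃ m, Inv J m := by
  obtain ⟨U, hU⟩ := exists_ultra hI hh hA hn
  let a : Set Ω → Set Ω → ℝ := fun C Y => ((C ∩ Y).ncard : ℝ) / Y.ncard
  have h0 : Ctrl J fun x y : Ω => x = y :=
    ⟨fun _ => rfl, fun _ _ e => e.symm, fun x => by simp,
      fun C hC => hI.mono (fun _ ⟨_, hx, e⟩ => e ▸ hx) hC⟩
  have hfin : ∀ᶠ Y in (U : Filter (Set Ω)), Y.Finite ∧ Y.Nonempty :=
    Filter.mem_of_superset (hU _ h0 _ hI.empty 1 one_pos) fun Y hY => ⟨hY.1, hY.2.1⟩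
  have hlim : ∀ C, ∃ r, Tendsto (a C) U (𝓝 r) := by
    intro C
    have h1 : (U.map (a C) : Filter ℝ) ≤ 𝓟 (Icc 0 1) := by
      rw [le_principal_iff, Ultrafilter.coe_map, Filter.mem_map]
      filter_upwards [hfin] with Y hY
      refine ⟨by positivity, div_le_one_of_le₀ ?_ (Nat.cast_nonneg _)⟩
      exact_mod_cast Set.ncard_le_ncard inter_subset_right hY.1
    obtain ⟨r, -, hr⟩ := isCompact_Icc.ultrafilter_le_nhds (U.map (a C)) h1
    exact ⟨r, hr⟩
  choose m hm using hlim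
  have hM : Mean m := by
    refine ⟨fun C => ge_of_tendsto' (hm C) fun Y => by positivity, ?_, fun C D hd => ?_⟩
    · refine tendsto_nhds_unique_of_eventuallyEq (hm _) tendsto_const_nhds ?_
      filter_upwards [hfin] with Y hY
      have : (Y.ncard : ℝ) ≠ 0 := by exact_mod_cast ((Set.ncard_pos hY.1).2 hY.2).ne'
      simp [a, this]
    · refine tendsto_nhds_unique_of_eventuallyEq (hm _) ((hm C).add (hm D)) ?_
      filter_upwards [hfin] with Y hY
      simp only [a]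
      rw [union_inter_distrib_right, Set.ncard_union_eq
        (hd.mono inter_subset_left inter_subset_left) (hY.1.inter_of_right _)
        (hY.1.inter_of_right _), Nat.cast_add, add_div]
  have hnull : ∀ N ∈ J, m N = 0 := by
    intro N hN
    refine tendsto_nhds_unique_of_eventuallyEq (hm _) tendsto_const_nhds ?_
    filter_upwards [hU _ h0 _ hN 1 one_pos] with Y hY
    simp [a, Set.disjoint_iff_inter_eq_empty.1 hY.2.2.1.symm]
  have hle : ∀ f B A, Le J f B A → m B ≤ m (f '' B) := by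
    intro f B A' hf
    obtain ⟨E, hE, hE'⟩ := ctrl_fam hI (ι := Unit) (B := fun _ => B) (A := fun _ => A')
      (f := fun _ => f) fun _ => hf
    refine le_of_forall_pos_le_add fun ε hε => ?_
    refine le_of_tendsto_of_tendsto (hm B) ((hm _).add_const ε) ?_
    filter_upwards [hU _ hE _ hI.empty ε hε] with Y hY
    obtain ⟨y1, y2, -, y4⟩ := hY
    have hp : (0 : ℝ) < Y.ncard := by exact_mod_cast (Set.ncard_pos y1).2 y2
    have hf' := hE.nb_fin y1
    have h1 : (B ∩ Y).ncard ≤ (f '' B ∩ Y ∪ (nb E Y \ Y)).ncard := by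
      refine Set.ncard_le_ncard_of_injOn f ?_ (hf.1.mono inter_subset_left)
        ((y1.inter_of_right _).union hf'.sdiff)
      rintro x ⟨hx, hx'⟩
      by_cases hc : f x ∈ Y
      · exact Or.inl ⟨⟨x, hx, rfl⟩, hc⟩
      · exact Or.inr ⟨⟨x, hx', hE' () x hx⟩, hc⟩
    have h2 := Set.ncard_union_le (f '' B ∩ Y) (nb E Y \ Y)
    have h3 := Set.ncard_sdiff_add_ncard_of_subset (hE.sub Y) hf'
    have h4 : ((B ∩ Y).ncard : ℝ) + Y.ncard ≤ (f '' B ∩ Y).ncard + (nb E Y).ncard := by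
      exact_mod_cast (by omega : (B ∩ Y).ncard + Y.ncard ≤ (f '' B ∩ Y).ncard + (nb E Y).ncard)
    show ((B ∩ Y).ncard : ℝ) / Y.ncard ≤ ((f '' B ∩ Y).ncard : ℝ) / Y.ncard + ε
    rw [div_add' _ _ _ hp.ne', div_le_div_iff_of_pos_right hp]
    nlinarith
  refine ⟨m, hM, fun C => ⟨hnull C, fun hC => ?_⟩, hle⟩
  by_contra hc
  obtain ⟨n, B, f, hB, hf⟩ := hh C hc
  have h1 : ∀ i, m (B i) ≤ 0 := fun i =>
    (hle _ _ _ (hf i)).trans ((hM.mono (hf i).2.1.image_subset).trans hC.le)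
  have h2 := hM.iUnion_le B h1
  have h3 := hM.compl (⋃ i, B i)
  rw [hnull _ hB] at h3
  linarith

variable {m : Set Ω → ℝ}

theorem Inv.image (h : Inv J m) {f : Ω → Ω} {B A : Set Ω} (hf : Le J f B A) :
    m (f '' B) = m B := by
  refine le_antisymm ?_ (h.le _ _ _ hf)
  obtain ⟨g, hg, -⟩ := hf.inv
  exact (h.le _ _ _ hg).trans (h.mono hg.2.1.image_subset)

theorem Inv.pos (h : Inv J m) {A : Set Ω} (hA : A ∉ J) : 0 < m A :=
  lt_of_le_of_ne (h.nonneg A) fun e => hA ((h.null A).2 e.symm)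

end Pool.Agent.P.MP_60ae12_al.T
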