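import Pool.Agent.P.MP_60ae12_al.Bridge

/-! Local embeddings of an ideal, controlled relations and the invariant mean. -/

open Set

namespace Pool.Agent.P.MP_60ae12_al.T

universe u

variable {Ω : Type u} {J : Set (Set Ω)}

/-- Local embedding of `B` into `A`. -/
def Le (J : Set (Set Ω)) (f : Ω → Ω) (B A : Set Ω) : Prop :=
  InjOn f B ∧ MapsTo f B A ∧ ∀ C : Set Ω, C ⊆ B → (C ∈ J ↔ f '' C ∈ J)

/-- `B` embeds into `A` after removing a small set. -/
def Sub (J : Set (Set Ω)) (B A : Set Ω) : Prop := ∃ N ∈ J, ∃ f, Le J f (B \ N) A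

theorem Le.mono {f : Ω → Ω} {B A B' A' : Set Ω} (h : Le J f B A) (hB : B' ⊆ B)
    (hA : MapsTo f B' A') : Le J f B' A' :=
  ⟨h.1.mono hB, hA, fun C hC => h.2.2 C (hC.trans hB)⟩

theorem Le.pre {f : Ω → Ω} {B A : Set Ω} (hI : IsIdl J) (h : Le J f B A) {C : Set Ω}
    (hC : C ∈ J) : B ∩ f ⁻¹' C ∈ J :=
  (h.2.2 _ inter_subset_left).2 (hI.mono (by rintro _ ⟨x, hx, rfl⟩; exact hx.2) hC)

theorem Le.inv {f : Ω → Ω} {B A : Set Ω} (h : Le J f B A) :
    ∃ g, Le J g (f '' B) B ∧ ∀ x ∈ B, g (f x) = x := by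
  classical
  have hg : ∃ g : Ω → Ω, ∀ x ∈ B, g (f x) = x := by
    refine ⟨fun y => if hy : ∃ x ∈ B, f x = y then hy.choose else y, fun x hx => ?_⟩
    have hy : ∃ x' ∈ B, f x' = f x := ⟨x, hx, rfl⟩
    simp only [hy, dif_pos]
    exact h.1 hy.choose_spec.1 hx hy.choose_spec.2
  obtain ⟨g, hg⟩ := hg
  refine ⟨g, ⟨?_, ?_, fun C hC => ?_⟩, hg⟩
  · rintro _ ⟨x, hx, rfl⟩ _ ⟨y, hy, rfl⟩ e
    rw [hg x hx, hg y hy] at e
    rw [e]
  · rintro _ ⟨x, hx, rfl⟩
    rw [hg x hx]; exact hx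
  · have h1 : g '' C ⊆ B := by
      rintro _ ⟨y, hy, rfl⟩
      obtain ⟨x, hx, rfl⟩ := hC hy
      rw [hg x hx]; exact hx
    have h2 : f '' (g '' C) = C := by
      apply Subset.antisymm
      · rintro _ ⟨_, ⟨y, hy, rfl⟩, rfl⟩
        obtain ⟨x, hx, rfl⟩ := hC hy
        rw [hg x hx]; exact hy
      · intro y hy
        obtain ⟨x, hx, rfl⟩ := hC hy
        exact ⟨_, ⟨_, hy, rfl⟩, by rw [hg x hx]⟩
    rw [h.2.2 _ h1, h2]

/-- A finitely additive probability on all subsets. -/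
structure Mean (m : Set Ω → ℝ) : Prop where
  nonneg : ∀ A, 0 ≤ m A
  univ : m univ = 1
  add : ∀ A B, Disjoint A B → m (A ∪ B) = m A + m B

variable {m : Set Ω → ℝ}

theorem Mean.empty (h : Mean m) : m ∅ = 0 := by
  have := h.add ∅ ∅ (by simp)
  simp at this
  exact this

theorem Mean.split (h : Mean m) (A B : Set Ω) : m A = m (A ∩ B) + m (A \ B) := by
  rw [← h.add _ _ (disjoint_sdiff_right.mono_left inter_subset_right), inter_union_sdiff]

theorem Mean.mono (h : Mean m) {A B : Set Ω} (hAB : A ⊆ B) : m A ≤ m B := by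
  rw [h.split B A, inter_eq_right.2 hAB]
  linarith [h.nonneg (B \ A)]

theorem Mean.le_one (h : Mean m) (A : Set Ω) : m A ≤ 1 := h.univ ▸ h.mono (subset_univ A)

theorem Mean.union_le (h : Mean m) (A B : Set Ω) : m (A ∪ B) ≤ m A + m B := by
  rw [h.split (A ∪ B) A, inter_eq_right.2 subset_union_left]
  have : m ((A ∪ B) \ A) ≤ m B := h.mono fun x hx => hx.1.resolve_left hx.2
  linarith

theorem Mean.compl (h : Mean m) (A : Set Ω) : m Aᶜ = 1 - m A := by
  have := h.add A Aᶜ disjoint_compl_right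
  rw [union_compl_self, h.univ] at this
  linarith

theorem Mean.diff_null (h : Mean m) (A : Set Ω) {N : Set Ω} (hN : m N = 0) : m (A \ N) = m A := by
  have h1 := h.split A N
  have h2 : m (A ∩ N) ≤ m N := h.mono inter_subset_right
  have h3 := h.nonneg (A ∩ N)
  linarith

theorem Mean.iUnion_le (h : Mean m) {n : ℕ} (B : Fin n → Set Ω) {c : ℝ} (hB : ∀ i, m (B i) ≤ c) :
    m (⋃ i, B i) ≤ n * c := by
  have key : ∀ s : Finset (Fin n), m (⋃ i ∈ s, B i) ≤ s.card * c := by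
    intro s
    induction s using Finset.induction_on with
    | empty => simp [h.empty]
    | insert a s ha ih =>
      rw [Finset.set_biUnion_insert, Finset.card_insert_of_notMem ha]
      have := h.union_le (B a) (⋃ i ∈ s, B i)
      have := hB a
      push_cast
      linarith
  simpa using key Finset.univ

/-- Neighbourhood of a set for a relation. -/
def nb (E : Ω → Ω → Prop) (C : Set Ω) : Set Ω := {y | ∃ x ∈ C, E x y}

/-- Controlled relations. -/
structure Ctrl (J : Set (Set Ω)) (E : Ω → Ω → Prop) : Prop where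
  refl : ∀ x, E x x
  symm : ∀ x y, E x y → E y x
  fin : ∀ x, {y | E x y}.Finite
  idl : ∀ C ∈ J, nb E C ∈ J

variable {E : Ω → Ω → Prop}

theorem nb_mono {C D : Set Ω} (h : C ⊆ D) : nb E C ⊆ nb E D :=
  fun _ ⟨x, hx, e⟩ => ⟨x, h hx, e⟩

theorem Ctrl.sub (h : Ctrl J E) (C : Set Ω) : C ⊆ nb E C := fun x hx => ⟨x, hx, h.refl x⟩

theorem Ctrl.nb_fin (h : Ctrl J E) {C : Set Ω} (hC : C.Finite) : (nb E C).Finite := by
  refine (hC.biUnion fun x _ => h.fin x).subset ?_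
  rintro y ⟨x, hx, e⟩
  exact mem_biUnion hx e

theorem Ctrl.le (hI : IsIdl J) (h : Ctrl J E) {f : Ω → Ω} {B A : Set Ω} (h1 : InjOn f B)
    (h2 : MapsTo f B A) (h3 : ∀ x ∈ B, E x (f x)) : Le J f B A := by
  refine ⟨h1, h2, fun C hC => ⟨fun hc => hI.mono ?_ (h.idl C hc), fun hc => hI.mono ?_ (h.idl _ hc)⟩⟩
  · rintro _ ⟨x, hx, rfl⟩
    exact ⟨x, hx, h3 x (hC hx)⟩
  · intro x hx
    exact ⟨f x, ⟨x, hx, rfl⟩, h.symm _ _ (h3 x (hC hx))⟩

theorem Ctrl.or (hI : IsIdl J) {E' : Ω → Ω → Prop} (h : Ctrl J E) (h' : Ctrl J E') :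
    Ctrl J fun x y => E x y ∨ E' x y where
  refl x := Or.inl (h.refl x)
  symm x y e := e.imp (h.symm x y) (h'.symm x y)
  fin x := ((h.fin x).union (h'.fin x)).subset fun _ e => e
  idl C hC := hI.mono (fun _ ⟨x, hx, e⟩ => e.imp (fun e => ⟨x, hx, e⟩) fun e => ⟨x, hx, e⟩)
    (hI.union (h.idl C hC) (h'.idl C hC))

theorem ctrl_fam (hI : IsIdl J) {ι : Type} [Finite ι] {B A : ι → Set Ω} {f : ι → Ω → Ω}
    (h : ∀ i, Le J (f i) (B i) (A i)) :
    ∃ E, Ctrl J E ∧ ∀ i, ∀ x ∈ B i, E x (f i x) := by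
  refine ⟨fun x y => x = y ∨ ∃ i, (x ∈ B i ∧ f i x = y) ∨ (y ∈ B i ∧ f i y = x),
    ⟨fun x => Or.inl rfl, ?_, fun x => ?_, fun C hC => ?_⟩,
    fun i x hx => Or.inr ⟨i, Or.inl ⟨hx, rfl⟩⟩⟩
  · rintro x y (e | ⟨i, e⟩)
    · exact Or.inl e.symm
    · exact Or.inr ⟨i, e.symm⟩
  · have h1 : ∀ i, ({f i x} ∪ (B i ∩ f i ⁻¹' {x})).Finite := fun i => by
      refine (finite_singleton _).union (Set.Subsingleton.finite ?_)
      rintro a ⟨ha, ha'⟩ b ⟨hb, hb'⟩
      exact (h i).1 ha hb (ha'.trans hb'.symm)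
    refine ((finite_singleton x).union (finite_iUnion h1)).subset ?_
    rintro y (e | ⟨i, e | e⟩)
    · exact Or.inl e.symm
    · exact Or.inr (mem_iUnion.2 ⟨i, Or.inl e.2.symm⟩)
    · exact Or.inr (mem_iUnion.2 ⟨i, Or.inr e⟩)
  · have h1 : ∀ i, (f i '' (C ∩ B i) ∪ (B i ∩ f i ⁻¹' C)) ∈ J := fun i =>
      hI.union (((h i).2.2 _ inter_subset_right).1 (hI.mono inter_subset_left hC))
        ((h i).pre hI hC)
    refine hI.mono ?_ (hI.union hC (hI.iUnion h1))
    rintro y ⟨x, hx, e | ⟨i, e | e⟩⟩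
    · exact Or.inl (e ▸ hx)
    · exact Or.inr (mem_iUnion.2 ⟨i, Or.inl ⟨x, ⟨hx, e.1⟩, e.2⟩⟩)
    · exact Or.inr (mem_iUnion.2 ⟨i, Or.inr ⟨e.1, show f i y ∈ C from e.2 ▸ hx⟩⟩)

theorem Ctrl.disj (h : Ctrl J E) {C D : Set Ω} (hd : Disjoint C (nb E D)) :
    Disjoint (nb E C) D := by
  rw [Set.disjoint_left] at hd ⊢
  rintro y ⟨x, hx, e⟩ hy
  exact hd hx ⟨y, hy, h.symm _ _ e⟩

theorem Ctrl.disj_iter (h : Ctrl J E) (k : ℕ) : ∀ {C D : Set Ω},
    Disjoint C ((nb E)^[k] D) → Disjoint ((nb E)^[k] C) D := by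
  induction k with
  | zero => exact fun hd => hd
  | succ k ih =>
    intro C D hd
    rw [Function.iterate_succ_apply] at hd
    rw [Function.iterate_succ_apply']
    exact h.disj (ih hd)

theorem iter_mono (k : ℕ) : ∀ {C D : Set Ω}, C ⊆ D → (nb E)^[k] C ⊆ (nb E)^[k] D := by
  induction k with
  | zero => exact fun hd => hd
  | succ k ih =>
    intro C D hd
    rw [Function.iterate_succ_apply, Function.iterate_succ_apply]
    exact ih (nb_mono hd)

theorem Ctrl.iter_fin (h : Ctrl J E) (k : ℕ) {C : Set Ω} (hC : C.Finite) :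
    ((nb E)^[k] C).Finite := by
  induction k with
  | zero => exact hC
  | succ k ih => rw [Function.iterate_succ_apply']; exact h.nb_fin ih

theorem Ctrl.iter_idl (h : Ctrl J E) (k : ℕ) {C : Set Ω} (hC : C ∈ J) : (nb E)^[k] C ∈ J := by
  induction k with
  | zero => exact hC
  | succ k ih => rw [Function.iterate_succ_apply']; exact h.idl _ ih

theorem Ctrl.iter_le (h : Ctrl J E) {j k : ℕ} (hjk : j ≤ k) (C : Set Ω) :
    (nb E)^[j] C ⊆ (nb E)^[k] C := by
  induction hjk with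
  | refl => exact Subset.rfl
  | step _ ih => rw [Function.iterate_succ_apply']; exact ih.trans (h.sub _)

theorem mem_iter (k : ℕ) : ∀ {C : Set Ω} {y : Ω}, y ∈ (nb E)^[k] C →
    ∃ x ∈ C, y ∈ (nb E)^[k] {x} := by
  induction k with
  | zero => exact fun hy => ⟨_, hy, rfl⟩
  | succ k ih =>
    intro C y hy
    rw [Function.iterate_succ_apply'] at hy
    obtain ⟨z, hz, e⟩ := hy
    obtain ⟨x, hx, hz'⟩ := ih hz
    exact ⟨x, hx, by rw [Function.iterate_succ_apply']; exact ⟨z, hz', e⟩⟩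

theorem Ctrl.pow (hI : IsIdl J) (h : Ctrl J E) (k : ℕ) :
    Ctrl J fun x y => y ∈ (nb E)^[k] {x} where
  refl x := h.iter_le (Nat.zero_le k) {x} rfl
  symm x y e := by
    by_contra hc
    have := h.disj_iter k (disjoint_singleton_left.2 hc)
    exact disjoint_singleton_right.1 this e
  fin x := h.iter_fin k (finite_singleton x)
  idl C hC := hI.mono (fun _ ⟨_, hx, e⟩ => iter_mono k (singleton_subset_iff.2 hx) e)
    (h.iter_idl k hC)

/-- Hall's theorem: either `S` embeds into `A` along `E`, or a finite set has few neighbours. -/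
theorem Ctrl.hall (hI : IsIdl J) (h : Ctrl J E) (S A : Set Ω) :
    (∃ f, Le J f S A) ∨ ∃ X ⊆ S, X.Finite ∧ (nb E X ∩ A).ncard < X.ncard := by
  classical
  let t : S → Finset Ω := fun x => ((h.fin x.1).inter_of_left A).toFinset
  by_cases hc : ∀ s : Finset S, s.card ≤ (s.biUnion t).card
  · left
    obtain ⟨f, hf, hf'⟩ := (Finset.all_card_le_biUnion_card_iff_exists_injective t).1 hc
    have ht : ∀ x : S, E x.1 (f x) ∧ f x ∈ A := fun x => by simpa [t] using hf' x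
    refine ⟨fun x => if hx : x ∈ S then f ⟨x, hx⟩ else x, h.le hI ?_ ?_ ?_⟩
    · intro x hx y hy e
      simp only [hx, hy, dif_pos] at e
      exact congrArg Subtype.val (hf e)
    · intro x hx
      simp only [hx, dif_pos]
      exact (ht _).2
    · intro x hx
      simp only [hx, dif_pos]
      exact (ht ⟨x, hx⟩).1
  · right
    push Not at hc
    obtain ⟨s, hs⟩ := hc
    refine ⟨(s.map (Function.Embedding.subtype _) : Finset Ω), ?_, Finset.finite_toSet _, ?_⟩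
    · intro x hx
      simp only [Finset.coe_map, Function.Embedding.subtype_apply, mem_image] at hx
      obtain ⟨y, -, rfl⟩ := hx
      exact y.2
    · rw [ncard_coe_finset, Finset.card_map]
      refine lt_of_le_of_lt (le_of_eq ?_) hs
      rw [← ncard_coe_finset]
      congr 1
      ext y
      simp only [nb, t, Finset.coe_map, Function.Embedding.subtype_apply, mem_image, mem_inter_iff,
        mem_ofPred_eq, Finset.coe_biUnion, mem_iUnion, Finite.coe_toFinset, Finset.mem_coe]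
      constructor
      · rintro ⟨⟨_, ⟨x, hx, rfl⟩, e⟩, hy⟩
        exact ⟨x, hx, e, hy⟩
      · rintro ⟨x, hx, e, hy⟩
        exact ⟨⟨_, ⟨x, hx, rfl⟩, e⟩, hy⟩

theorem ncard_iUnion_le {n : ℕ} (B : Fin n → Set Ω) {c : ℕ} (hB : ∀ i, (B i).ncard ≤ c) :
    (⋃ i, B i).ncard ≤ n * c := by
  have key : ∀ s : Finset (Fin n), (⋃ i ∈ s, B i).ncard ≤ s.card * c := by
    intro s
    induction s using Finset.induction_on with
    | empty => simp
    | insert a s ha ih =>
      rw [Finset.set_biUnion_insert, Finset.card_insert_of_notMem ha]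
      have := Set.ncard_union_le (B a) (⋃ i ∈ s, B i)
      have := hB a
      nlinarith
  simpa using key Finset.univ

/-- Følner sets. -/
def Fol (E : Ω → Ω → Prop) (N : Set Ω) (ε : ℝ) (Y : Set Ω) : Prop :=
  Y.Finite ∧ Y.Nonempty ∧ Disjoint Y N ∧ ((nb E Y).ncard : ℝ) ≤ (1 + ε) * Y.ncard

theorem exists_fol (hI : IsIdl J) (hh : HomI J) {A : Set Ω} (hA : A ∉ J)
    (hn : ¬ Sub J univ A) (h : Ctrl J E) {N : Set Ω} (hN : N ∈ J) {ε : ℝ} (hε : 0 < ε) :
    ∃ Y, Fol E N ε Y := by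
  obtain ⟨n, B, f, hB, hf⟩ := hh A hA
  obtain ⟨E0, h0, h0'⟩ := ctrl_fam hI (A := fun _ => A) hf
  have h1 := h.or hI h0
  set E1 := fun x y => E x y ∨ E0 x y with hE1
  obtain ⟨k, hk⟩ := pow_unbounded_of_one_lt (n : ℝ) (show 1 < 1 + ε by linarith)
  have hM : N ∪ (⋃ i, B i)ᶜ ∈ J := hI.union hN hB
  set M := N ∪ (⋃ i, B i)ᶜ with hM'
  rcases (h1.pow hI (k + 1)).hall hI (univ \ (nb E1)^[k] M) A with ⟨g, hg⟩ | ⟨X, hX, hXf, hlt⟩
  · exact absurd ⟨_, h1.iter_idl k hM, g, hg⟩ hn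
  have hd : Disjoint ((nb E1)^[k] X) M :=
    h1.disj_iter k (Set.disjoint_left.2 fun x hx => (hX hx).2)
  have hZ := h1.iter_fin k hXf
  have hW : (nb (fun x y => y ∈ (nb E1)^[k + 1] {x}) X ∩ A).Finite :=
    ((h1.pow hI (k + 1)).nb_fin hXf).inter_of_left A
  have h2 : ((nb E1)^[k] X).ncard ≤ n * X.ncard := by
    have e : (nb E1)^[k] X = ⋃ i, ((nb E1)^[k] X ∩ B i) := by
      rw [← inter_iUnion]
      refine (inter_eq_left.2 fun x hx => ?_).symm
      by_contra hc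
      exact Set.disjoint_left.1 hd hx (Or.inr hc)
    rw [e]
    refine ncard_iUnion_le _ fun i => le_trans ?_ hlt.le
    refine Set.ncard_le_ncard_of_injOn (f i) ?_ ((hf i).1.mono inter_subset_right) hW
    rintro x ⟨hx, hx'⟩
    refine ⟨?_, (hf i).2.1 hx'⟩
    obtain ⟨z, hz, hz'⟩ := mem_iter k hx
    refine ⟨z, hz, ?_⟩
    show f i x ∈ (nb E1)^[k + 1] {z}
    rw [Function.iterate_succ_apply']
    exact ⟨x, hz', Or.inr (h0' i x hx')⟩
  have hpos : 0 < X.ncard := lt_of_le_of_lt (Nat.zero_le _) hlt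
  have hXn : X.Nonempty := nonempty_of_ncard_ne_zero hpos.ne'
  by_contra hc
  push Not at hc
  have key : ∀ j ≤ k, (1 + ε) ^ j * (X.ncard : ℝ) ≤ ((nb E1)^[j] X).ncard := by
    intro j
    induction j with
    | zero => intro _; simp
    | succ j ih =>
      intro hj
      have h3 := ih (by omega)
      have h4 : (1 + ε) * (((nb E1)^[j] X).ncard : ℝ) < (nb E ((nb E1)^[j] X)).ncard := by
        by_contra h5
        refine hc ((nb E1)^[j] X) ⟨h1.iter_fin j hXf, hXn.mono (h1.iter_le (Nat.zero_le j) X), ?_,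
          not_lt.1 h5⟩
        exact hd.mono (h1.iter_le (by omega) X) subset_union_left
      have h5 : (nb E ((nb E1)^[j] X)).ncard ≤ ((nb E1)^[j + 1] X).ncard := by
        refine Set.ncard_le_ncard ?_ (h1.iter_fin _ hXf)
        rw [Function.iterate_succ_apply']
        exact fun _ ⟨x, hx, e⟩ => ⟨x, hx, Or.inl e⟩
      have h6 : ((nb E ((nb E1)^[j] X)).ncard : ℝ) ≤ ((nb E1)^[j + 1] X).ncard := by
        exact_mod_cast h5
      rw [pow_succ]
      nlinarith
  have h3 := key k le_rfl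
  have h4 : (((nb E1)^[k] X).ncard : ℝ) ≤ n * X.ncard := by exact_mod_cast h2
  have h5 : (0 : ℝ) < X.ncard := by exact_mod_cast hpos
  nlinarith

end Pool.Agent.P.MP_60ae12_al.T
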