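import Pool.Agent.P.MP_60ae12_al.T.Iso
import Pool.Agent.P.MP_60ae12_al.T.Defs

/-! The trichotomy. -/

open Set
open Cardinal hiding univ

namespace Pool.Agent.P.MP_60ae12_al.T

universe u

variable {Ω : Type u} {F : Filter Ω} {ν : Cardinal.{u}} {E : Set Ω}

theorem iso_iff {A B : Set Ω} : Iso F A B ↔ ∃ k, BijOn k A B ∧ Le (dual F) k A B :=
  exists_congr fun _ => and_congr_right fun hk =>
    ⟨fun h => ⟨hk.injOn, hk.mapsTo, h⟩, fun h => h.2.2⟩

theorem card_eq_of_pos {J : Set (Set Ω)} (h : Good J ν E) {A : Set Ω} (hA : A ∉ J) :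
    A ∩ E ∉ J ∧ #(A ∩ E : Set Ω) = ν :=
  ⟨fun hc => hA (h.of_inter hc), le_antisymm (sub_le inter_subset_right h.hE)
    (not_lt.1 fun hc => hA (h.of_inter (h.small _ hc)))⟩

theorem typeI_of_atom (h : Good (dual F) ν E) (ht : Tall (dual F) ν) (hh : HomI (dual F))
    {A : Set Ω} (hA : A ∉ dual F) (hat : ∀ C ⊆ A, C ∉ dual F → A \ C ∈ dual F) : TypeI F := by
  have hI := h.idl
  let G : Filter Ω :=
    { sets := {C | A \ C ∈ dual F}
      univ_sets := by simpa using hI.empty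
      sets_of_superset := fun h1 h2 => hI.mono (sdiff_subset_sdiff_right h2) h1
      inter_sets := fun h1 h2 => by
        show A \ (_ ∩ _) ∈ dual F
        rw [sdiff_inter]; exact hI.union h1 h2 }
  have hG : ∀ C, Cᶜ ∉ G ↔ C ∈ G := by
    intro C
    show A \ Cᶜ ∉ dual F ↔ A \ C ∈ dual F
    constructor
    · intro h1
      refine hI.mono (fun x hx => ?_) (hat _ sdiff_subset h1)
      exact ⟨hx.1, fun h2 => h2.2 hx.2⟩
    · intro h1 h2
      refine hA (hI.mono (fun x hx => ?_) (hI.union h1 h2))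
      by_cases h3 : x ∈ C
      · exact Or.inr ⟨hx, fun h4 => h4 h3⟩
      · exact Or.inl ⟨hx, h3⟩
  let U : Ultrafilter Ω := Ultrafilter.ofComplNotMemIff G hG
  have hU : ∀ C, C ∈ U ↔ A \ C ∈ dual F := fun C => Iff.rfl
  obtain ⟨n, B, f, hB, hf⟩ := hh A hA
  have key : ∀ i, ∃ g : Equiv.Perm Ω, ∀ Δ : Set Ω,
      (Δᶜ ∈ dual F → Δ ∈ U.map g) ∧ (Δ ∈ U.map g → B i \ Δ ∈ dual F) := by
    intro i
    by_cases hb : B i ∈ dual F
    · refine ⟨1, fun Δ => ⟨fun h1 => ?_, fun _ => hI.mono sdiff_subset hb⟩⟩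
      rw [Ultrafilter.mem_map, hU]
      exact hI.mono (fun x hx => hx.2) h1
    have hfi : Le (dual F) (f i) (B i) A := hf i
    obtain ⟨h1, h2⟩ := card_eq_of_pos h hb
    obtain ⟨M, k1, k2, k3, k4⟩ := big_null h ht h1
    set B' := (B i ∩ E) \ M with hB'
    have s1 : B' ⊆ B i := fun x hx => hx.1.1
    have s2 : M ⊆ B i := fun x hx => (k1 hx).1
    have c1 : #B' ≤ #M := k3 ▸ mk_le_mk_of_subset sdiff_subset
    have c2 : #(f i '' M : Set Ω) = #M := mk_image_eq_of_injOn _ _ (hfi.1.mono s2)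
    have c3 : #(univ \ B' : Set Ω) = #(univ \ f i '' B' : Set Ω) := by
      rw [diff_eq (Q := M) (fun x hx => ⟨mem_univ _, fun h3 => h3.2 hx⟩) k4 c1,
        diff_eq (Q := f i '' M) ?_ (c2 ▸ k4) (c2 ▸ mk_image_le.trans c1)]
      rintro _ ⟨x, hx, rfl⟩
      refine ⟨mem_univ _, ?_⟩
      rintro ⟨y, hy, e⟩
      exact hy.2 (hfi.1 (s1 hy) (s2 hx) e ▸ hx)
    obtain ⟨p, -, hp⟩ := exists_extend (hfi.1.mono s1).bijOn_image (subset_univ _)
      (subset_univ _) c3
    have n1 : B i \ B' ∈ dual F := by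
      refine hI.mono (fun x hx => ?_) (hI.union h.hEc k2)
      by_cases h3 : x ∈ E
      · right
        by_contra h4
        exact hx.2 ⟨⟨hx.1, h3⟩, h4⟩
      · exact Or.inl h3
    have n2 : B' ∉ dual F := fun h3 => hb (hI.mono (fun x hx => by
      by_cases h4 : x ∈ B'
      · exact Or.inl h4
      · exact Or.inr ⟨hx, h4⟩) (hI.union h3 n1))
    have n3 : A \ f i '' B' ∈ dual F :=
      hat _ ((image_mono s1).trans hfi.2.1.image_subset) fun h3 => n2 ((hfi.2.2 _ s1).2 h3)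
    have main : ∀ Δ : Set Ω, Δ ∈ U.map p.symm ↔ B i \ Δ ∈ dual F := by
      intro Δ
      rw [Ultrafilter.mem_map, hU]
      have e : f i '' (B' \ Δ) = f i '' B' \ p.symm ⁻¹' Δ := by
        ext y
        constructor
        · rintro ⟨x, hx, rfl⟩
          refine ⟨⟨x, hx.1, rfl⟩, fun h3 => hx.2 ?_⟩
          rwa [mem_preimage, ← hp hx.1, Equiv.symm_apply_apply] at h3
        · rintro ⟨⟨x, hx, rfl⟩, h3⟩
          refine ⟨x, ⟨hx, fun h4 => h3 ?_⟩, rfl⟩
          rwa [mem_preimage, ← hp hx, Equiv.symm_apply_apply]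
      have e' := hfi.2.2 (B' \ Δ) (sdiff_subset.trans s1)
      rw [e] at e'
      constructor
      · intro h3
        have h4 := e'.2 (hI.mono (sdiff_subset_sdiff_left
          ((image_mono s1).trans hfi.2.1.image_subset)) h3)
        refine hI.mono (fun x hx => ?_) (hI.union h4 n1)
        by_cases h5 : x ∈ B'
        · exact Or.inl ⟨h5, hx.2⟩
        · exact Or.inr ⟨hx.1, h5⟩
      · intro h3
        have h4 := e'.1 (hI.mono (sdiff_subset_sdiff_left s1) h3)
        refine hI.mono (fun x hx => ?_) (hI.union h4 n3)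
        by_cases h5 : x ∈ f i '' B'
        · exact Or.inl ⟨h5, hx.2⟩
        · exact Or.inr ⟨hx.1, h5⟩
    exact ⟨p.symm, fun Δ => ⟨fun h3 => (main Δ).2 (hI.mono (fun x hx => hx.2) h3), (main Δ).1⟩⟩
  choose g hg using key
  refine ⟨U, n, g, fun Δ => ⟨fun h1 i => (hg i Δ).1 (mem_iff_dual.1 h1), fun h1 => ?_⟩⟩
  rw [mem_iff_dual]
  refine hI.mono (fun x hx => ?_) (hI.union (hI.iUnion fun i => (hg i Δ).2 (h1 i)) hB)
  by_cases h2 : x ∈ ⋃ i, B i
  · obtain ⟨i, hi⟩ := mem_iUnion.1 h2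
    exact Or.inl (mem_iUnion.2 ⟨i, hi, hx⟩)
  · exact Or.inr h2

theorem types_of_homI (h : Good (dual F) ν E) (ht : Tall (dual F) ν) (hh : HomI (dual F)) :
    TypeI F ∨ TypeII F ∨ TypeIII F := by
  have hI := h.idl
  by_cases h1 : ∃ A, A ∉ dual F ∧ ∀ C ⊆ A, C ∉ dual F → A \ C ∈ dual F
  · obtain ⟨A, hA, hat⟩ := h1
    exact Or.inl (typeI_of_atom h ht hh hA hat)
  right
  push Not at h1
  by_cases h2 : ∀ A, A ∉ dual F → Sub (dual F) univ A
  · right
    have h3 : ∀ A B, B ∉ dual F → Sub (dual F) A B := fun A B hB => by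
      obtain ⟨N, hN, f, hf⟩ := h2 B hB
      have : A \ N ⊆ univ \ N := sdiff_subset_sdiff_left (subset_univ _)
      exact ⟨N, hN, f, hf.mono this (hf.2.1.mono_left this)⟩
    exact fun A B hA hB hc => iso_iff.2 (iso_of_sub h ht hA hB hc (h3 _ _ hB) (h3 _ _ hA))
  left
  push Not at h2
  obtain ⟨A0, hA0, hn⟩ := h2
  obtain ⟨m, hm⟩ := exists_inv hI hh hA0 hn
  refine ⟨m, hm.nonneg, hm.univ, hm.add, hm.toMean.range (hm.fine hh h1), fun Δ => ?_,
    fun A B => ?_⟩
  · rw [mem_iff_dual, hm.null, hm.compl]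
    constructor <;> intro h3 <;> linarith
  · rw [iso_iff]
    constructor
    · rintro ⟨k, hk, hk'⟩
      refine ⟨by rw [← hk.image_eq, mk_image_eq_of_injOn _ _ hk.injOn], ?_⟩
      rw [← hm.image hk', hk.image_eq]
    · rintro ⟨hc, he⟩
      by_cases hA : A ∈ dual F
      · have hB : B ∈ dual F := by rw [hm.null, ← he, ← hm.null]; exact hA
        obtain ⟨k, hk⟩ := exists_bijOn hc
        exact ⟨k, hk, hk.injOn, hk.mapsTo, fun C hC => ⟨fun _ =>
          hI.mono ((image_mono hC).trans hk.image_eq.le) hB, fun _ => hI.mono hC hA⟩⟩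
      · have hB : B ∉ dual F := by rw [hm.null, ← he, ← hm.null]; exact hA
        exact iso_of_sub h ht hA hB hc (sub_of_le hI hh hm he.le) (sub_of_le hI hh hm he.ge)

theorem homI_of_typeI (h : TypeI F) : HomI (dual F) := by
  obtain ⟨U, n, g, hF⟩ := h
  have hd : ∀ C, C ∈ dual F ↔ ∀ i, C ∉ U.map (g i) := fun C => by
    show Cᶜ ∈ F ↔ _
    rw [hF]
    exact forall_congr' fun i => Ultrafilter.compl_mem_iff_notMem
  have hsep : ∀ j, ∃ D ∈ U.map (g j), ∀ C ⊆ D, (C ∈ dual F ↔ C ∉ U.map (g j)) := by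
    intro j
    have h1 : ∀ k, ∃ S ∈ U.map (g j), U.map (g k) = U.map (g j) ∨ S ∉ U.map (g k) := by
      intro k
      by_contra hc
      push Not at hc
      refine (hc univ Filter.univ_mem).1 (Ultrafilter.coe_le_coe.1 fun S hS => (hc S hS).2)
    choose S hS hS' using h1
    refine ⟨⋂ k, S k, Filter.iInter_mem.2 hS, fun C hC => ?_⟩
    rw [hd]
    refine ⟨fun h2 => h2 j, fun h2 k h3 => ?_⟩
    rcases hS' k with e | e
    · exact h2 (e ▸ h3)
    · exact e (Filter.mem_of_superset h3 (hC.trans (iInter_subset _ k)))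
  choose D hD hD' using hsep
  intro A hA
  rw [hd] at hA
  push Not at hA
  obtain ⟨i, hi⟩ := hA
  have tr : ∀ j (S : Set Ω), (fun x => g i ((g j).symm x)) ⁻¹' S ∈ U.map (g j) ↔
      S ∈ U.map (g i) := fun j S => by
    rw [Ultrafilter.mem_map, Ultrafilter.mem_map, ← preimage_comp]
    have : ((fun x => g i ((g j).symm x)) ∘ g j) = g i := by
      ext x; simp
    rw [this]
  have inj : ∀ j, Function.Injective fun x => g i ((g j).symm x) := fun j =>
    (g i).injective.comp (g j).symm.injective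
  refine ⟨n, fun j => D j ∩ (fun x => g i ((g j).symm x)) ⁻¹' (A ∩ D i),
    fun j x => g i ((g j).symm x), ?_, fun j => ⟨(inj j).injOn, fun x hx => hx.2.1, fun C hC => ?_⟩⟩
  · rw [← mem_iff_dual, hF]
    intro j
    exact Filter.mem_of_superset (Filter.inter_mem (hD j) ((tr j _).2 (Filter.inter_mem hi (hD i))))
      (subset_iUnion (fun j => D j ∩ (fun x => g i ((g j).symm x)) ⁻¹' (A ∩ D i)) j)
  · rw [hD' j C (hC.trans inter_subset_left), hD' i _ (by
      rintro _ ⟨x, hx, rfl⟩; exact (hC hx).2.2), ← tr j, preimage_image_eq _ (inj j)]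

theorem homI_of_typeII (h : Good (dual F) ν E) (h2 : TypeII F) : HomI (dual F) := by
  obtain ⟨m, m1, m2, m3, m4, m5, m6⟩ := h2
  have hm : Mean m := ⟨m1, m2, m3⟩
  have hd : ∀ C, C ∈ dual F ↔ m C = 0 := fun C => by
    show Cᶜ ∈ F ↔ _
    rw [m5, hm.compl]
    constructor <;> intro h3 <;> linarith
  intro A hA
  have hp : 0 < m A := lt_of_le_of_ne (m1 A) fun e => hA ((hd A).2 e.symm)
  obtain ⟨k, hk⟩ := exists_nat_one_div_lt hp
  set t : ℝ := 1 / ((k : ℝ) + 1) with ht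
  have t0 : 0 < t := by positivity
  have key : ∀ j : ℕ, j * t ≤ 1 → ∃ B : Fin j → Set Ω, (∀ i, m (B i) = t) ∧
      m (⋃ i, B i) = j * t := by
    intro j
    induction j with
    | zero => exact fun _ => ⟨Fin.elim0, fun i => i.elim0, by simp [hm.empty]⟩
    | succ j ih =>
      intro hj
      push_cast at hj
      obtain ⟨B, hB, hB'⟩ := ih (by linarith)
      obtain ⟨C, hC, hC'⟩ := m4 (⋃ i, B i)ᶜ t t0.le (by rw [hm.compl, hB']; linarith)
      refine ⟨Fin.cons C B, fun i => Fin.cases hC' hB i, ?_⟩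
      have e : (⋃ i, (Fin.cons C B : Fin (j + 1) → Set Ω) i) = C ∪ ⋃ i, B i := by
        ext x
        simp
      rw [e, m3 _ _ (subset_compl_iff_disjoint_right.1 hC), hB', hC']
      push_cast
      ring
  have t1 : ((k + 1 : ℕ) : ℝ) * t = 1 := by
    rw [ht]; push_cast; field_simp
  obtain ⟨B, hB, hB'⟩ := key (k + 1) t1.le
  obtain ⟨A', hA', hA''⟩ := m4 A t t0.le hk.le
  have cut : ∀ C, m (C ∩ E) = m C := fun C => by
    rw [← hm.diff_null C ((hd _).1 h.hEc), sdiff_compl]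
  have pos : ∀ C, m C = t → #(C ∩ E : Set Ω) = ν := fun C hC =>
    (card_eq_of_pos h fun hc => t0.ne' (hC ▸ (hd C).1 hc)).2
  have h3 : ∀ i, ∃ f, Le (dual F) f (B i ∩ E) A := fun i => by
    obtain ⟨f, -, hf⟩ := iso_iff.1 ((m6 (B i ∩ E) (A' ∩ E)).2
      ⟨by rw [pos _ (hB i), pos _ hA''], by rw [cut, cut, hB, hA'']⟩)
    exact ⟨f, hf.mono Subset.rfl (hf.2.1.mono_right (inter_subset_left.trans hA'))⟩
  choose f hf using h3
  refine ⟨k + 1, fun i => B i ∩ E, f, ?_, hf⟩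
  rw [hd, hm.compl, ← iUnion_inter, cut, hB', t1, sub_self]

theorem homI_of_typeIII (h : Good (dual F) ν E) (h3 : TypeIII F) : HomI (dual F) := by
  intro A hA
  obtain ⟨a1, a2⟩ := card_eq_of_pos h hA
  obtain ⟨b1, b2⟩ := card_eq_of_pos h h.proper
  obtain ⟨f, -, hf⟩ := iso_iff.1 (h3 _ _ b1 a1 (b2.trans a2.symm))
  refine ⟨1, fun _ => univ ∩ E, fun _ => f, ?_,
    fun _ => hf.mono Subset.rfl (hf.2.1.mono_right inter_subset_left)⟩
  rw [iUnion_const, univ_inter]
  exact h.hEc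

theorem homog_iff_types (hF : F.NeBot) (hs : Superclosed F) :
    Homog F ↔ TypeI F ∨ TypeII F ∨ TypeIII F := by
  obtain ⟨E, h, ht⟩ := good_of_superclosed hF hs
  rw [homog_iff]
  exact ⟨types_of_homI h ht, fun h1 => h1.elim homI_of_typeI fun h2 =>
    h2.elim (homI_of_typeII h) (homI_of_typeIII h)⟩

end Pool.Agent.P.MP_60ae12_al.T
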